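import Mathlib

/-!
# Fourier analysis of the exponents
-/

set_option autoImplicit false

namespace Pool.Agent.H857.PB

open Finset

lemma sum_root {g : ℕ} {ω : ℂ} (hω : IsPrimitiveRoot ω g) (l l' : Fin g) :
    ∑ N ∈ range g, (ω ^ (l : ℕ)) ^ N * ((ω ^ (l' : ℕ))⁻¹) ^ N = if l = l' then (g : ℂ) else 0 := by
  have hg : g ≠ 0 := by
    have := l.2
    omega
  have hω0 : ω ≠ 0 := hω.ne_zero hg
  simp only [← mul_pow]
  split_ifs with h
  · subst h
    rw [mul_inv_cancel₀ (pow_ne_zero _ hω0)]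
    simp
  · set z := ω ^ (l : ℕ) * (ω ^ (l' : ℕ))⁻¹ with hz
    have hz1 : z ≠ 1 := by
      intro h1
      apply h
      rw [hz, mul_inv_eq_one₀ (pow_ne_zero _ hω0)] at h1
      exact Fin.ext (hω.pow_inj l.2 l'.2 h1)
    have hzg : z ^ g = 1 := by
      rw [hz, mul_pow, inv_pow, ← pow_mul, ← pow_mul, mul_comm (l : ℕ), mul_comm (l' : ℕ), pow_mul,
        pow_mul, hω.pow_eq_one, one_pow, one_pow, inv_one, one_mul]
    have h1 := geom_sum_mul z g
    rw [hzg, sub_self] at h1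
    exact (mul_eq_zero.1 h1).resolve_right (sub_ne_zero.2 hz1)

lemma inversion {g : ℕ} {ω : ℂ} (hω : IsPrimitiveRoot ω g) (π : Equiv.Perm (Fin g))
    (s : Fin g → ℂ) (i' : Fin g) :
    ∑ N ∈ range g, (∑ i, s i * (ω ^ (π i : ℕ)) ^ N) * ((ω ^ (π i' : ℕ))⁻¹) ^ N = g * s i' := by
  have h1 : ∀ N ∈ range g, (∑ i, s i * (ω ^ (π i : ℕ)) ^ N) * ((ω ^ (π i' : ℕ))⁻¹) ^ N =
      ∑ i, s i * ((ω ^ (π i : ℕ)) ^ N * ((ω ^ (π i' : ℕ))⁻¹) ^ N) := by
    intro N _
    rw [sum_mul]
    exact sum_congr rfl fun i _ => by ring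
  rw [sum_congr rfl h1, sum_comm]
  have h2 : ∀ i ∈ (univ : Finset (Fin g)), ∑ N ∈ range g, s i * ((ω ^ (π i : ℕ)) ^ N *
      ((ω ^ (π i' : ℕ))⁻¹) ^ N) = if i = i' then g * s i' else 0 := by
    intro i _
    rw [← mul_sum, sum_root hω]
    by_cases h : i = i'
    · subst h
      simp [mul_comm]
    · rw [if_neg (fun h3 => h (π.injective h3)), if_neg h, mul_zero]
  rw [sum_congr rfl h2, sum_ite_eq' univ i']
  simp

/-- A nonzero function with sum zero has a nonzero Fourier coefficient outside of zero; if all these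
have the index `g / 2`, the absolute value of the function is constant. -/
theorem dft {g : ℕ} {ω : ℂ} (hω : IsPrimitiveRoot ω g) (π : Equiv.Perm (Fin g))
    (m : Fin g → ℕ) (hm : ∃ i, m i ≠ 0) (ε : Fin g → Bool)
    (hs : ∑ i, (if ε i then -(m i : ℤ) else m i) = 0) (η : ℕ → ℂ)
    (h : ∀ N : ℕ, (∑ i, ((if ε i then -(m i : ℤ) else m i : ℤ) : ℂ) * (ω ^ (π i : ℕ)) ^ N) *
        η N = 0) :
    ∃ j, 1 ≤ j ∧ j < g ∧ η j = 0 ∧ η (g - j) = 0 ∧ (j ≠ g - j ∨ ∀ i i', m i = m i') := by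
  obtain ⟨i₀, hi₀⟩ := hm
  have hg : g ≠ 0 := by
    have := i₀.2
    omega
  have hω0 : ω ≠ 0 := hω.ne_zero hg
  have hnorm : ‖ω‖ = 1 := hω.norm'_eq_one hg
  set s : Fin g → ℂ := fun i => ((if ε i then -(m i : ℤ) else m i : ℤ) : ℂ) with hsdef
  have hsnorm : ∀ i, ‖s i‖ = m i := by
    intro i
    rw [hsdef]
    dsimp only
    split_ifs <;> simp
  set F : ℕ → ℂ := fun N => ∑ i, s i * (ω ^ (π i : ℕ)) ^ N with hF
  have h' : ∀ N, F N * η N = 0 := h
  have hF0 : F 0 = 0 := by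
    rw [hF]
    simp only [pow_zero, mul_one]
    rw [hsdef]
    have h2 := congrArg (fun t : ℤ => (t : ℂ)) hs
    simpa using h2
  have hconjω : (starRingEnd ℂ) ω = ω⁻¹ := by
    have h1 : ω * (starRingEnd ℂ) ω = 1 := by
      rw [Complex.mul_conj, Complex.normSq_eq_norm_sq, hnorm]
      simp
    exact (inv_eq_of_mul_eq_one_right h1).symm
  have hconj : ∀ j, j ≤ g → F (g - j) = (starRingEnd ℂ) (F j) := by
    intro j hj
    rw [hF]
    dsimp only
    rw [map_sum]
    refine sum_congr rfl fun i _ => ?_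
    rw [map_mul, map_pow, map_pow, hconjω]
    congr 1
    · rw [hsdef]
      dsimp only
      rw [map_intCast]
    · have h1 : (ω ^ (π i : ℕ)) ^ (g - j) * (ω ^ (π i : ℕ)) ^ j = 1 := by
        rw [← pow_add, Nat.sub_add_cancel hj, ← pow_mul, mul_comm, pow_mul, hω.pow_eq_one, one_pow]
      rw [inv_pow, inv_pow]
      exact eq_inv_of_mul_eq_one_left h1
  by_cases hex : ∃ j, 1 ≤ j ∧ j < g ∧ j ≠ g - j ∧ F j ≠ 0
  · obtain ⟨j, h1, h2, h3, h4⟩ := hex
    refine ⟨j, h1, h2, (mul_eq_zero.1 (h' j)).resolve_left h4,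
      (mul_eq_zero.1 (h' (g - j))).resolve_left ?_, Or.inl h3⟩
    rw [hconj j h2.le]
    simpa using h4
  push Not at hex
  have hinv : ∀ i', (g : ℂ) * s i' = ∑ N ∈ (range g).filter (fun N => 2 * N = g),
      F N * ((ω ^ (π i' : ℕ))⁻¹) ^ N := by
    intro i'
    rw [← inversion hω π s i', sum_filter]
    refine sum_congr rfl fun N hN => ?_
    have hN' := mem_range.1 hN
    split_ifs with h2
    · rfl
    · by_cases h3 : N = 0
      · subst h3
        have : (∑ i, s i * (ω ^ (π i : ℕ)) ^ 0) = F 0 := rfl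
        rw [this, hF0, zero_mul]
      · have h4 := hex N (by omega) hN' (by omega)
        have : (∑ i, s i * (ω ^ (π i : ℕ)) ^ N) = F N := rfl
        rw [this, h4, zero_mul]
  by_cases heven : ∃ j, 2 * j = g
  · obtain ⟨j, hj⟩ := heven
    have hfil : (range g).filter (fun N => 2 * N = g) = {j} := by
      ext N
      rw [mem_filter, mem_range, mem_singleton]
      omega
    have hj1 : 1 ≤ j := by omega
    have hinv' : ∀ i', (g : ℂ) * s i' = F j * ((ω ^ (π i' : ℕ))⁻¹) ^ j := by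
      intro i'
      rw [hinv, hfil, sum_singleton]
    have hnormi : ∀ i', (g : ℝ) * m i' = ‖F j‖ := by
      intro i'
      have h1 := congrArg norm (hinv' i')
      rw [norm_mul, norm_mul, hsnorm, Complex.norm_natCast, norm_pow, norm_inv, norm_pow, hnorm,
        one_pow, inv_one, one_pow, mul_one] at h1
      exact h1
    have hFj : F j ≠ 0 := by
      intro h0
      have h1 := hnormi i₀
      rw [h0, norm_zero] at h1
      have h2 : (g : ℝ) ≠ 0 := by exact_mod_cast hg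
      have h3 : (m i₀ : ℝ) ≠ 0 := by exact_mod_cast hi₀
      exact mul_ne_zero h2 h3 h1
    have hη : η j = 0 := (mul_eq_zero.1 (h' j)).resolve_left hFj
    refine ⟨j, hj1, by omega, hη, ?_, Or.inr fun i i' => ?_⟩
    · rw [show g - j = j by omega]
      exact hη
    · have h1 := (hnormi i).trans (hnormi i').symm
      have h2 : (g : ℝ) ≠ 0 := by exact_mod_cast hg
      have h3 := mul_left_cancel₀ h2 h1
      exact_mod_cast h3
  · exfalso
    have hfil : (range g).filter (fun N => 2 * N = g) = ∅ := by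
      ext N
      simp only [mem_filter, mem_range, notMem_empty, iff_false, not_and]
      intro _ h2
      exact heven ⟨N, h2⟩
    have h1 := hinv i₀
    rw [hfil, sum_empty] at h1
    have h2 : (g : ℂ) ≠ 0 := by exact_mod_cast hg
    have h3 := (mul_eq_zero.1 h1).resolve_left h2
    have h4 := hsnorm i₀
    rw [h3, norm_zero] at h4
    exact hi₀ (by exact_mod_cast h4.symm)

end Pool.Agent.H857.PB
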