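import Pool.Agent.H857.PB.Zero
import Pool.Agent.H857.PB.Dft

/-!
# The pencils on which a relation holds identically
-/

set_option autoImplicit false

namespace Pool.Agent.H857.PB

open PowerSeries

/-- A choice of the series `B` for the coefficients `x'`. -/
noncomputable def solB (q : ℂ) {n : ℕ} (x' : Fin n → ℂ) : ℂ⟦X⟧ :=
  (exists_sol q (Nat.succ_pos n) (cf x')).choose_spec.choose

lemma solB_spec (q : ℂ) {n : ℕ} (x' : Fin n → ℂ) : ∃ U, Sol q (n + 1) (cf x') U (solB q x') :=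
  ⟨_, (exists_sol q (Nat.succ_pos n) (cf x')).choose_spec.choose_spec⟩

/-- The coefficients of the logarithmic derivative. -/
noncomputable def et (q : ℂ) {n : ℕ} (x' : Fin n → ℂ) (j : ℕ) : ℂ := coeff j (eta (solB q x'))

/-- The vanishing of the `j`-th coefficient determines the coefficient of index `n - j` from those of
larger index. -/
theorem tri {q : ℂ} {n : ℕ} {x' x'' : Fin n → ℂ} {j : ℕ} (hj : 1 ≤ j) (hjn : j ≤ n)
    (h : ∀ i : Fin n, n - j < (i : ℕ) → x' i = x'' i) (h1 : et q x' j = 0)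
    (h2 : et q x'' j = 0) (i : Fin n) (hi : (i : ℕ) = n - j) : x' i = x'' i := by
  obtain ⟨U', hU'⟩ := solB_spec q x'
  obtain ⟨U'', hU''⟩ := solB_spec q x''
  have h3 := diff_eta hU' hU'' hj (by omega) (by
    intro k hk1 hk2
    obtain ⟨l, rfl⟩ : ∃ l, k = l + 1 := ⟨k - 1, by omega⟩
    have hl : l < n := by omega
    have h4 := cf_succ x' ⟨l, hl⟩
    have h5 := cf_succ x'' ⟨l, hl⟩
    simp only at h4 h5
    rw [h4, h5]
    exact h _ (by simp only; omega))
  have h4 : coeff j (eta (solB q x')) = 0 := h1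
  have h5 : coeff j (eta (solB q x'')) = 0 := h2
  rw [h4, h5, sub_zero, eq_comm, div_eq_zero_iff, neg_eq_zero] at h3
  have h6 : n + 1 - j = (i : ℕ) + 1 := by omega
  rw [h6, cf_succ, cf_succ] at h3
  have h7 : ((n + 1 : ℕ) : ℂ) ≠ 0 := by exact_mod_cast Nat.succ_ne_zero n
  have h8 := h3.resolve_right h7
  have h9 : (j : ℂ) ≠ 0 := by
    have : j ≠ 0 := by omega
    exact_mod_cast this
  exact sub_eq_zero.1 ((mul_eq_zero.1 h8).resolve_left h9)

/-- The consequences of a relation which holds identically. -/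
theorem bad_of_pen {n : ℕ} {P : MvPolynomial (Fin (n + 1)) RR} {m : Fin (n + 1) → ℕ}
    (hP : IsUniv P m) (hm : ∃ i, m i ≠ 0) {q e : ℂ} (hq : q ≠ 0) (he : e ≠ 0) {x' : Fin n → ℂ}
    (h0 : pen P q e x' = 0) :
    ∃ j, 1 ≤ j ∧ j < n + 1 ∧ et q x' j = 0 ∧ et q x' (n + 1 - j) = 0 ∧
      (j ≠ n + 1 - j ∨ ∀ i i', m i = m i') := by
  obtain ⟨U, hU⟩ := solB_spec q x'
  obtain ⟨ω, hω⟩ : ∃ ω : ℂ, IsPrimitiveRoot ω (n + 1) :=
    ⟨_, Complex.isPrimitiveRoot_exp (n + 1) (Nat.succ_ne_zero n)⟩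
  obtain ⟨π, ε, h1, h2⟩ := pen_zero hP hq he h0 hU hω
  exact dft hω π m hm ε h1 (et q x') h2

/-- The second pencil, where the constant coefficient is zero and the next one is variable. -/
noncomputable def pen2 {n : ℕ} (P : MvPolynomial (Fin (n + 2)) RR) (q e : ℂ) (x' : Fin n → ℂ) :
    Polynomial ℂ :=
  val P (Polynomial.C q) (Polynomial.C e)
    (Fin.cons 0 (Fin.cons Polynomial.X (fun i => Polynomial.C (x' i)) :
      Fin (n + 1) → Polynomial ℂ) : Fin (n + 2) → Polynomial ℂ)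

lemma pen2_natDegree {n : ℕ} (P : MvPolynomial (Fin (n + 2)) RR) (q e : ℂ) (x' : Fin n → ℂ) :
    (pen2 P q e x').natDegree ≤ P.totalDegree := by
  apply natDegree_val_le
  intro i
  refine Fin.cases ?_ (fun j => ?_) i
  · simp
  · refine Fin.cases ?_ (fun l => ?_) j
    · simp
    · simp

lemma pen2_eval {n : ℕ} (P : MvPolynomial (Fin (n + 2)) RR) (q e : ℂ) (x' : Fin n → ℂ) (t : ℂ) :
    (pen2 P q e x').eval t =
      val P q e (Fin.cons 0 (Fin.cons t x' : Fin (n + 1) → ℂ) : Fin (n + 2) → ℂ) := by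
  have h1 := map_val P (Polynomial.evalRingHom t) (Polynomial.C q) (Polynomial.C e)
    (Fin.cons 0 (Fin.cons Polynomial.X (fun i => Polynomial.C (x' i)) :
      Fin (n + 1) → Polynomial ℂ) : Fin (n + 2) → Polynomial ℂ)
  rw [Polynomial.coe_evalRingHom] at h1
  rw [pen2, h1]
  congr 1
  · simp
  · simp
  · funext i
    refine Fin.cases ?_ (fun j => ?_) i
    · simp
    · refine Fin.cases ?_ (fun l => ?_) j
      · simp
      · simp

lemma hp_cons_zero {S : Type} [CommRing S] {n : ℕ} (v : Fin n → S) :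
    hp (Fin.cons 0 v : Fin (n + 1) → S) = Polynomial.X * hp v := by
  rw [hp, hp, Fin.sum_univ_succ, mul_add, Finset.mul_sum]
  simp only [Fin.cons_zero, map_zero, zero_mul, zero_add, Fin.cons_succ, Fin.val_succ]
  congr 1
  · ring
  · exact Finset.sum_congr rfl fun i _ => by ring

lemma sum_signs_ne {ι : Type} [Fintype ι] (hodd : Odd (Fintype.card ι)) {M : ℕ} (hM : M ≠ 0)
    (ε : ι → Bool) : ∑ i, (if ε i then -(M : ℤ) else M) ≠ 0 := by
  have h1 : ∑ i, (if ε i then -(M : ℤ) else M) = M * ∑ i, (if ε i then (-1 : ℤ) else 1) := by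
    rw [Finset.mul_sum]
    refine Finset.sum_congr rfl fun i _ => ?_
    split_ifs <;> simp
  rw [h1]
  refine mul_ne_zero (by exact_mod_cast hM) ?_
  intro h0
  have h2 : (∑ i, (if ε i then (-1 : ℤ) else 1)) ≡ ∑ i : ι, (1 : ℤ) [ZMOD 2] := by
    refine (ZMod.intCast_eq_intCast_iff _ _ 2).1 ?_
    push_cast
    refine Finset.sum_congr rfl fun i _ => ?_
    split_ifs
    · decide
    · rfl
  rw [h0] at h2
  simp only [Finset.sum_const, Finset.card_univ, nsmul_eq_mul, mul_one] at h2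
  have h3 : (2 : ℤ) ∣ (Fintype.card ι : ℤ) := by
    have := h2.dvd
    simpa using this
  have h4 : Even (Fintype.card ι) := even_iff_two_dvd.2 (by exact_mod_cast h3)
  exact (Nat.not_even_iff_odd.2 hodd) h4

/-- If all exponents are equal and the degree is even, the relation does not hold identically on the
second pencil. -/
theorem pen2_ne_zero {n : ℕ} {P : MvPolynomial (Fin (n + 2)) RR} {m : Fin (n + 2) → ℕ}
    (hP : IsUniv P m) {M : ℕ} (hM : M ≠ 0) (hm : ∀ i, m i = M) (heven : Even (n + 2))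
    {q e : ℂ} (hq : q ≠ 0) (he : e ≠ 0) (x' : Fin n → ℂ) : pen2 P q e x' ≠ 0 := by
  classical
  intro h0
  obtain ⟨U, hU⟩ := solB_spec q x'
  obtain ⟨ω, hω⟩ : ∃ ω : ℂ, IsPrimitiveRoot ω (n + 1) :=
    ⟨_, Complex.isPrimitiveRoot_exp (n + 1) (Nat.succ_ne_zero n)⟩
  obtain ⟨a, b, ha, hab, hx⟩ := exists_laurent x' q hU hω
  obtain ⟨s, hs⟩ := IsAlgClosed.exists_pow_nat_eq (-q) two_pos
  have hs0 : s ≠ 0 := by
    rintro rfl
    rw [zero_pow two_ne_zero] at hs
    exact hq (neg_eq_zero.1 hs.symm)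
  have h1 := map_val P (Polynomial.eval₂RingHom (th.comp C) (-(1 / (th X) ^ (n + 1))))
    (Polynomial.C q) (Polynomial.C e)
    (Fin.cons 0 (Fin.cons Polynomial.X (fun i => Polynomial.C (x' i)) :
      Fin (n + 1) → Polynomial ℂ) : Fin (n + 2) → Polynomial ℂ)
  rw [pen2] at h0
  rw [h0, map_zero] at h1
  have h2 : (fun i => (Polynomial.eval₂RingHom (th.comp C) (-(1 / (th X) ^ (n + 1))))
      ((Fin.cons 0 (Fin.cons Polynomial.X (fun i => Polynomial.C (x' i)) :
      Fin (n + 1) → Polynomial ℂ) : Fin (n + 2) → Polynomial ℂ) i)) =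
      (Fin.cons 0 (Fin.cons (-(1 / (th X) ^ (n + 1))) (fun i => th (C (x' i))) :
        Fin (n + 1) → LL) : Fin (n + 2) → LL) := by
    funext i
    refine Fin.cases ?_ (fun j => ?_) i
    · simp
    · refine Fin.cases ?_ (fun l => ?_) j
      · simp
      · simp
  rw [h2] at h1
  have h3 : (Polynomial.eval₂RingHom (th.comp C) (-(1 / (th X) ^ (n + 1)))) (Polynomial.C q) =
      th (C q) := by simp
  have h4 : (Polynomial.eval₂RingHom (th.comp C) (-(1 / (th X) ^ (n + 1)))) (Polynomial.C e) =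
      th (C e) := by simp
  rw [h3, h4] at h1
  have hab' : ∀ i, (Fin.cons (th (C s)) a : Fin (n + 2) → LL) i *
      (Fin.cons (-th (C s)) b : Fin (n + 2) → LL) i = th (C q) := by
    intro i
    refine Fin.cases ?_ (fun j => ?_) i
    · rw [Fin.cons_zero, Fin.cons_zero, mul_neg, ← map_mul, ← map_mul, ← pow_two, hs, map_neg,
        map_neg, neg_neg]
    · rw [Fin.cons_succ, Fin.cons_succ, hab]
  have hx' : hp (Fin.cons 0 (Fin.cons (-(1 / (th X) ^ (n + 1))) (fun i => th (C (x' i))) :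
        Fin (n + 1) → LL) : Fin (n + 2) → LL) =
      ∏ j, (Polynomial.X - Polynomial.C ((Fin.cons (th (C s)) a : Fin (n + 2) → LL) j +
        (Fin.cons (-th (C s)) b : Fin (n + 2) → LL) j)) := by
    rw [hp_cons_zero, hx, Fin.prod_univ_succ (n := n + 1)]
    simp
  obtain ⟨π, ε, h5⟩ := (val_eq_zero_iff hP hab' hx').1 h1.symm
  set i₀ := π.symm 0 with hi₀
  have hπ0 : π i₀ = 0 := by rw [hi₀, Equiv.apply_symm_apply]
  have hne : ∀ i : Fin (n + 1), π (i₀.succAbove i) ≠ 0 := by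
    intro i h6
    rw [← hπ0] at h6
    exact Fin.succAbove_ne i₀ i (π.injective h6)
  rw [Fin.prod_univ_succAbove _ i₀, hπ0, Fin.cons_zero, Fin.cons_zero] at h5
  let f : Fin (n + 1) → Fin (n + 1) := fun i => (π (i₀.succAbove i)).pred (hne i)
  have hf : ∀ i, π (i₀.succAbove i) = (f i).succ := fun i => (Fin.succ_pred _ _).symm
  obtain ⟨s', hs'0, hs'⟩ : ∃ s' : ℂ, s' ≠ 0 ∧
      (if ε i₀ then -th (C s) else th (C s)) ^ m i₀ = th (C s') := by
    by_cases hε : ε i₀
    · refine ⟨(-s) ^ m i₀, pow_ne_zero _ (neg_ne_zero.2 hs0), ?_⟩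
      rw [if_pos hε]
      simp
    · refine ⟨s ^ m i₀, pow_ne_zero _ hs0, ?_⟩
      rw [if_neg hε]
      simp
  have h6 : ∏ i : Fin (n + 1), (if ε (i₀.succAbove i) then b (f i) else a (f i)) ^ M =
      th (C (e / s')) := by
    rw [hs'] at h5
    have h7 : th (C s') ≠ 0 := by
      rw [Ne, map_eq_zero_iff th th_inj, map_eq_zero_iff _ C_injective]
      exact hs'0
    apply mul_left_cancel₀ h7
    rw [← map_mul, ← map_mul, mul_div_cancel₀ _ hs'0, ← h5]
    congr 1
    refine Finset.prod_congr rfl fun i _ => ?_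
    rw [hf, Fin.cons_succ, Fin.cons_succ, hm]
  have h7 := (rel_laurent hq (div_ne_zero he hs'0) (by rw [hU.B0]; exact one_ne_zero)
    (hω.ne_zero (Nat.succ_ne_zero n)) f (fun _ => M) (fun i => ε (i₀.succAbove i)) ha hab h6).1
  refine sum_signs_ne (ι := Fin (n + 1)) ?_ hM (fun i => ε (i₀.succAbove i)) h7
  rw [Fintype.card_fin]
  rcases Nat.even_or_odd (n + 1) with h8 | h8
  · exfalso
    have h9 : Odd (n + 2) := h8.add_one
    exact (Nat.not_even_iff_odd.2 h9) heven
  · exact h8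

end Pool.Agent.H857.PB
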