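import Pool.Agent.H857.PB.Bad

/-!
# Counting the points with a relation
-/

set_option autoImplicit false

namespace Pool.Agent.H857.PB

open Finset

section kill

variable {g : ℕ} (X : Fin g → Finset ℤ)

/-- The product of the numbers of elements of the sets whose index is not in `J`. -/
noncomputable def DD (J : Finset (Fin g)) : ℕ := ∏ i ∈ univ \ J, (X i).card

/-- Forget the coordinates with index in `J`. -/
def kill (J : Finset (Fin g)) (x : Fin g → ℤ) : Fin g → ℤ := fun i => if i ∈ J then 0 else x i

lemma kill_eq_iff {J : Finset (Fin g)} {x y : Fin g → ℤ} :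
    kill J x = kill J y ↔ ∀ i, i ∉ J → x i = y i := by
  constructor
  · intro h i hi
    have := congrFun h i
    rwa [kill, kill, if_neg hi, if_neg hi] at this
  · intro h
    funext i
    rw [kill, kill]
    split_ifs with hi
    · rfl
    · exact h i hi

variable {X}

/-- A set of points with few points in the fibres. -/
theorem card_le_fibre {J : Finset (Fin g)} {N : ℕ} {S : Finset (Fin g → ℤ)}
    (hS : S ⊆ Fintype.piFinset X)
    (h : ∀ x ∈ S, (S.filter fun y => ∀ i, i ∉ J → y i = x i).card ≤ N) :
    S.card ≤ N * DD X J := by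
  classical
  have h1 := card_le_mul_card_image (f := kill J) S N (by
    intro a ha
    obtain ⟨x, hx, rfl⟩ := mem_image.1 ha
    refine le_trans (card_le_card ?_) (h x hx)
    intro y hy
    rw [mem_filter] at hy ⊢
    exact ⟨hy.1, kill_eq_iff.1 hy.2⟩)
  refine h1.trans (Nat.mul_le_mul_left N ?_)
  have h2 : S.image (kill J) ⊆ Fintype.piFinset (fun i => if i ∈ J then {0} else X i) := by
    intro z hz
    obtain ⟨x, hx, rfl⟩ := mem_image.1 hz
    rw [Fintype.mem_piFinset]
    intro i
    rw [kill]
    split_ifs with hi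
    · exact mem_singleton_self _
    · exact Fintype.mem_piFinset.1 (hS hx) i
  refine (card_le_card h2).trans ?_
  rw [Fintype.card_piFinset, DD, ← prod_sdiff (subset_univ J)]
  have h3 : ∏ i ∈ J, (if i ∈ J then ({0} : Finset ℤ) else X i).card = 1 := by
    refine prod_eq_one fun i hi => ?_
    rw [if_pos hi, card_singleton]
  rw [h3, mul_one]
  refine le_of_eq (prod_congr rfl fun i hi => ?_)
  rw [if_neg (mem_sdiff.1 hi).2]

/-- A set of points with one point in each fibre. -/
theorem card_le_fibre_one {J : Finset (Fin g)} {S : Finset (Fin g → ℤ)}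
    (hS : S ⊆ Fintype.piFinset X)
    (h : ∀ x ∈ S, ∀ y ∈ S, (∀ i, i ∉ J → y i = x i) → y = x) : S.card ≤ DD X J := by
  classical
  have h1 := card_le_fibre (N := 1) hS (J := J) (by
    intro x hx
    refine (card_le_one).2 ?_
    intro y hy z hz
    rw [mem_filter] at hy hz
    rw [h x hx y hy.1 hy.2, h x hx z hz.1 hz.2])
  rwa [one_mul] at h1

end kill

section main

variable {n : ℕ} {X : Fin (n + 1) → Finset ℤ} {P : MvPolynomial (Fin (n + 1)) RR}
  {m : Fin (n + 1) → ℕ} {q e : ℂ}

/-- The last coordinates, as complex numbers. -/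
noncomputable def tl (x : Fin (n + 1) → ℤ) : Fin n → ℂ := fun i => (x i.succ : ℂ)

lemma cons_tl (x : Fin (n + 1) → ℤ) :
    (Fin.cons (x 0 : ℂ) (tl x) : Fin (n + 1) → ℂ) = fun i => (x i : ℂ) := by
  funext i
  refine Fin.cases ?_ (fun j => ?_) i
  · rfl
  · rfl

/-- The points of the box where the universal polynomial vanishes. -/
noncomputable def zeros (X : Fin (n + 1) → Finset ℤ) (P : MvPolynomial (Fin (n + 1)) RR)
    (q e : ℂ) : Finset (Fin (n + 1) → ℤ) :=
  open Classical in (Fintype.piFinset X).filter fun x => val P q e (fun i => (x i : ℂ)) = 0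

/-- The points on pencils on which the polynomial does not vanish identically. -/
theorem card_good : open Classical in
    ((zeros X P q e).filter fun x => pen P q e (tl x) ≠ 0).card ≤
      P.totalDegree * DD X {0} := by
  classical
  apply card_le_fibre
  · intro x hx
    rw [mem_filter, zeros, mem_filter] at hx
    exact hx.1.1
  · intro x hx
    rw [mem_filter, zeros, mem_filter] at hx
    obtain ⟨⟨hx1, hx2⟩, hx3⟩ := hx
    have h1 : ((pen P q e (tl x)).roots.toFinset).card ≤ P.totalDegree :=
      (Multiset.toFinset_card_le _).trans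
        ((Polynomial.card_roots' _).trans (pen_natDegree P q e (tl x)))
    refine le_trans ?_ h1
    refine card_le_card_of_injOn (fun y => (y 0 : ℂ)) ?_ ?_
    · intro y hy
      rw [coe_filter, Set.mem_ofPred_eq, mem_filter, zeros, mem_filter] at hy
      obtain ⟨⟨⟨hy1, hy2⟩, hy3⟩, hy4⟩ := hy
      have h2 : tl y = tl x := by
        funext i
        rw [tl, tl, hy4 i.succ (by simp [Fin.succ_ne_zero])]
      rw [mem_coe, Multiset.mem_toFinset, Polynomial.mem_roots hx3, Polynomial.IsRoot.def,
        pen_eval, ← h2, cons_tl]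
      exact hy2
    · intro y hy z hz hyz
      rw [coe_filter, Set.mem_ofPred_eq] at hy hz
      funext i
      refine Fin.cases ?_ (fun j => ?_) i
      · have h3 : (y 0 : ℂ) = (z 0 : ℂ) := hyz
        exact_mod_cast h3
      · rw [hy.2 j.succ (by simp [Fin.succ_ne_zero]), hz.2 j.succ (by simp [Fin.succ_ne_zero])]

/-- The points of the box with two vanishing coefficients. -/
noncomputable def vanish (X : Fin (n + 1) → Finset ℤ) (q : ℂ) (j : ℕ) :
    Finset (Fin (n + 1) → ℤ) :=
  open Classical in (Fintype.piFinset X).filter fun x =>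
    et q (tl x) j = 0 ∧ et q (tl x) (n + 1 - j) = 0

/-- The coordinate determined by the vanishing of a coefficient. -/
lemma det_coord {x y : Fin (n + 1) → ℤ} {j : ℕ} (hj : 1 ≤ j) (hjn : j ≤ n)
    (hx : et q (tl x) j = 0) (hy : et q (tl y) j = 0)
    (h : ∀ i : Fin (n + 1), n + 1 - j < (i : ℕ) → y i = x i) (i : Fin (n + 1))
    (hi : (i : ℕ) = n + 1 - j) : y i = x i := by
  obtain ⟨l, rfl⟩ : ∃ l : Fin n, i = l.succ := by
    refine ⟨⟨(i : ℕ) - 1, by have := i.2; omega⟩, ?_⟩
    apply Fin.ext
    simp only [Fin.val_succ]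
    omega
  have h1 := tri hj hjn (x' := tl y) (x'' := tl x) (by
    intro i' hi'
    rw [tl, tl, h i'.succ (by rw [Fin.val_succ]; omega)]) hy hx l (by
      rw [Fin.val_succ] at hi
      omega)
  rw [tl, tl] at h1
  exact_mod_cast h1

theorem card_vanish {j : ℕ} (hj : 1 ≤ j) (hjn : j ≤ n) (hne : j ≠ n + 1 - j) :
    (vanish X q j).card ≤
      DD X (univ.filter fun i : Fin (n + 1) => (i : ℕ) = j ∨ (i : ℕ) = n + 1 - j) := by
  classical
  apply card_le_fibre_one
  · intro x hx
    rw [vanish, mem_filter] at hx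
    exact hx.1
  · intro x hx y hy h
    rw [vanish, mem_filter] at hx hy
    have h' : ∀ i : Fin (n + 1), (i : ℕ) ≠ j → (i : ℕ) ≠ n + 1 - j → y i = x i := by
      intro i h1 h2
      apply h
      rw [mem_filter]
      rintro ⟨-, h3 | h3⟩
      · exact h1 h3
      · exact h2 h3
    rcases lt_or_gt_of_ne hne with hlt | hlt
    · -- `j < n + 1 - j`
      have h1 : ∀ i : Fin (n + 1), (i : ℕ) = n + 1 - j → y i = x i := fun i hi =>
        det_coord hj hjn hx.2.1 hy.2.1 (fun i' hi' => h' i' (by omega) (by omega)) i hi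
      have h2 : ∀ i : Fin (n + 1), (i : ℕ) = j → y i = x i := by
        intro i hi
        refine det_coord (j := n + 1 - j) (by omega) (by omega) hx.2.2 hy.2.2
          (fun i' hi' => ?_) i (by omega)
        by_cases h3 : (i' : ℕ) = n + 1 - j
        · exact h1 i' h3
        · exact h' i' (by omega) h3
      funext i
      by_cases h3 : (i : ℕ) = j
      · exact h2 i h3
      · by_cases h4 : (i : ℕ) = n + 1 - j
        · exact h1 i h4
        · exact h' i h3 h4
    · have h2 : ∀ i : Fin (n + 1), (i : ℕ) = j → y i = x i := fun i hi =>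
        det_coord (j := n + 1 - j) (by omega) (by omega) hx.2.2 hy.2.2
          (fun i' hi' => h' i' (by omega) (by omega)) i (by omega)
      have h1 : ∀ i : Fin (n + 1), (i : ℕ) = n + 1 - j → y i = x i := by
        intro i hi
        refine det_coord hj hjn hx.2.1 hy.2.1 (fun i' hi' => ?_) i hi
        by_cases h3 : (i' : ℕ) = j
        · exact h2 i' h3
        · exact h' i' h3 (by omega)
      funext i
      by_cases h3 : (i : ℕ) = j
      · exact h2 i h3
      · by_cases h4 : (i : ℕ) = n + 1 - j
        · exact h1 i h4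
        · exact h' i h3 h4

end main

/-- The points of the box with a vanishing coefficient and in the zero set of the second family. -/
noncomputable def vanish2 {n : ℕ} (X : Fin (n + 2) → Finset ℤ) (P : MvPolynomial (Fin (n + 2)) RR)
    (q e : ℂ) (j : ℕ) : Finset (Fin (n + 2) → ℤ) :=
  open Classical in (Fintype.piFinset X).filter fun x =>
    et q (tl x) j = 0 ∧ (pen2 P q e (fun i => (x i.succ.succ : ℂ))).eval (x 1 : ℂ) = 0

theorem card_vanish2 {n : ℕ} {X : Fin (n + 2) → Finset ℤ} {P : MvPolynomial (Fin (n + 2)) RR}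
    {m : Fin (n + 2) → ℕ} (hP : IsUniv P m) {M : ℕ} (hM : M ≠ 0) (hm : ∀ i, m i = M)
    {q e : ℂ} (hq : q ≠ 0) (he : e ≠ 0) {j : ℕ} (hj : 2 ≤ j) (hj2 : 2 * j = n + 2) :
    (vanish2 X P q e j).card ≤ P.totalDegree *
      DD X (univ.filter fun i : Fin (n + 2) => (i : ℕ) = 1 ∨ (i : ℕ) = j) := by
  classical
  apply card_le_fibre
  · intro x hx
    rw [vanish2, mem_filter] at hx
    exact hx.1
  · intro x hx
    rw [vanish2, mem_filter] at hx
    obtain ⟨hx1, hx2, hx3⟩ := hx
    have hne := pen2_ne_zero hP hM hm ⟨j, by omega⟩ hq he (fun i => (x i.succ.succ : ℂ))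
    have h1 : ((pen2 P q e (fun i => (x i.succ.succ : ℂ))).roots.toFinset).card ≤
        P.totalDegree :=
      (Multiset.toFinset_card_le _).trans
        ((Polynomial.card_roots' _).trans (pen2_natDegree P q e _))
    refine le_trans ?_ h1
    have key : ∀ y ∈ ((vanish2 X P q e j).filter fun y => ∀ i, i ∉ (univ.filter
        fun i : Fin (n + 2) => (i : ℕ) = 1 ∨ (i : ℕ) = j) → y i = x i),
        (∀ i : Fin (n + 2), (i : ℕ) ≠ 1 → y i = x i) ∧
          (pen2 P q e (fun i => (x i.succ.succ : ℂ))).eval (y 1 : ℂ) = 0 := by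
      intro y hy
      rw [mem_filter, vanish2, mem_filter] at hy
      obtain ⟨⟨hy1, hy2, hy3⟩, hy4⟩ := hy
      have h' : ∀ i : Fin (n + 2), (i : ℕ) ≠ 1 → (i : ℕ) ≠ j → y i = x i := by
        intro i h1 h2
        apply hy4
        rw [mem_filter]
        rintro ⟨-, h3 | h3⟩
        · exact h1 h3
        · exact h2 h3
      have h2 : ∀ i : Fin (n + 2), (i : ℕ) = j → y i = x i := fun i hi =>
        det_coord (n := n + 1) (j := j) (by omega) (by omega) hx2 hy2
          (fun i' hi' => h' i' (by omega) (by omega)) i (by omega)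
      have h3 : ∀ i : Fin (n + 2), (i : ℕ) ≠ 1 → y i = x i := by
        intro i hi
        by_cases h4 : (i : ℕ) = j
        · exact h2 i h4
        · exact h' i hi h4
      refine ⟨h3, ?_⟩
      have h4 : (fun i : Fin n => (y i.succ.succ : ℂ)) = fun i => (x i.succ.succ : ℂ) := by
        funext i
        rw [h3 i.succ.succ (by simp)]
      rw [← h4]
      exact hy3
    refine card_le_card_of_injOn (fun y => (y 1 : ℂ)) ?_ ?_
    · intro y hy
      rw [mem_coe] at hy
      rw [mem_coe, Multiset.mem_toFinset, Polynomial.mem_roots hne, Polynomial.IsRoot.def]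
      exact (key y hy).2
    · intro y hy z hz hyz
      rw [mem_coe] at hy hz
      funext i
      by_cases h2 : (i : ℕ) = 1
      · have h3 : i = 1 := Fin.ext h2
        have h4 : (y 1 : ℂ) = (z 1 : ℂ) := hyz
        rw [h3]
        exact_mod_cast h4
      · rw [(key y hy).1 i h2, (key z hz).1 i h2]

/-- The set of the two coordinates which belong to `j`. -/
def Jset (n j : ℕ) : Finset (Fin (n + 1)) :=
  univ.filter fun i : Fin (n + 1) => (i : ℕ) = j ∨
    (i : ℕ) = if j ≠ n + 1 - j then n + 1 - j else 1

theorem card_vanish_one {X : Fin (1 + 1) → Finset ℤ} {q : ℂ} :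
    (vanish X q 1).card ≤ DD X (Jset 1 1) := by
  classical
  apply card_le_fibre_one
  · intro x hx
    rw [vanish, mem_filter] at hx
    exact hx.1
  · intro x hx y hy h
    rw [vanish, mem_filter] at hx hy
    have h0 : ∀ i : Fin (1 + 1), (i : ℕ) ≠ 1 → y i = x i := by
      intro i h1
      apply h
      rw [Jset, mem_filter]
      rintro ⟨-, h3 | h3⟩
      · exact h1 h3
      · simp at h3
        exact h1 (by rw [h3])
    funext i
    by_cases h3 : (i : ℕ) = 1
    · exact det_coord (j := 1) le_rfl le_rfl hx.2.1 hy.2.1 (fun i' hi' => h0 i' (by omega)) i h3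
    · exact h0 i h3

/-- **The number of the points of a box where the universal polynomial vanishes.** -/
theorem card_zeros {n : ℕ} {X : Fin (n + 1) → Finset ℤ} {P : MvPolynomial (Fin (n + 1)) RR}
    {m : Fin (n + 1) → ℕ} (hP : IsUniv P m) (hm : ∃ i, m i ≠ 0) {q e : ℂ} (hq : q ≠ 0)
    (he : e ≠ 0) :
    (zeros X P q e).card ≤ P.totalDegree * DD X {0} +
      ∑ j ∈ Icc 1 n, (P.totalDegree + 1) * DD X (Jset n j) := by
  classical
  rw [← card_filter_add_card_filter_not (s := zeros X P q e) (fun x => pen P q e (tl x) ≠ 0)]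
  refine Nat.add_le_add card_good ?_
  let V : ℕ → Finset (Fin (n + 1) → ℤ) := fun j =>
    ((zeros X P q e).filter fun x => ¬ pen P q e (tl x) ≠ 0).filter fun x =>
      et q (tl x) j = 0 ∧ et q (tl x) (n + 1 - j) = 0 ∧ (j ≠ n + 1 - j ∨ ∀ i i', m i = m i')
  have hsub : ((zeros X P q e).filter fun x => ¬ pen P q e (tl x) ≠ 0) ⊆
      (Icc 1 n).biUnion V := by
    intro x hx
    have hx' := hx
    rw [mem_filter, not_not] at hx
    obtain ⟨j, h1, h2, h3, h4, h5⟩ := bad_of_pen hP hm hq he hx.2
    rw [mem_biUnion]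
    exact ⟨j, mem_Icc.2 ⟨h1, by omega⟩, mem_filter.2 ⟨hx', h3, h4, h5⟩⟩
  refine (card_le_card hsub).trans (card_biUnion_le.trans (sum_le_sum fun j hj => ?_))
  obtain ⟨hj1, hjn⟩ := mem_Icc.1 hj
  have hVx : ∀ x ∈ V j, x ∈ Fintype.piFinset X ∧ pen P q e (tl x) = 0 ∧ et q (tl x) j = 0 ∧
      et q (tl x) (n + 1 - j) = 0 ∧ (j ≠ n + 1 - j ∨ ∀ i i', m i = m i') := by
    intro x hx
    rw [mem_filter, mem_filter, zeros, mem_filter, not_not] at hx
    exact ⟨hx.1.1.1, hx.1.2, hx.2⟩
  by_cases hne : j ≠ n + 1 - j
  · have h1 : V j ⊆ vanish X q j := by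
      intro x hx
      obtain ⟨h1, -, h3, h4, -⟩ := hVx x hx
      rw [vanish, mem_filter]
      exact ⟨h1, h3, h4⟩
    have h2 := (card_le_card h1).trans (card_vanish hj1 hjn hne)
    have h3 : Jset n j =
        univ.filter fun i : Fin (n + 1) => (i : ℕ) = j ∨ (i : ℕ) = n + 1 - j := by
      rw [Jset]
      simp only [if_pos hne]
    rw [h3]
    refine h2.trans (Nat.le_mul_of_pos_left _ (Nat.succ_pos _))
  · rw [not_not] at hne
    by_cases hj2 : 2 ≤ j
    · obtain ⟨n', rfl⟩ : ∃ n', n = n' + 1 := ⟨n - 1, by omega⟩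
      by_cases hall : ∀ i i', m i = m i'
      · obtain ⟨i₀, hi₀⟩ := hm
        have h1 : V j ⊆ vanish2 X P q e j := by
          intro x hx
          obtain ⟨h1, h2, h3, -, -⟩ := hVx x hx
          rw [vanish2, mem_filter]
          refine ⟨h1, h3, ?_⟩
          rw [pen2_eval]
          have h4 := pen_eval P q e (tl x) 0
          rw [h2, Polynomial.eval_zero] at h4
          refine Eq.trans ?_ h4.symm
          congr 1
          funext i
          refine Fin.cases ?_ (fun j => ?_) i
          · rfl
          · refine Fin.cases ?_ (fun l => ?_) j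
            · rfl
            · rfl
        have h2 := (card_le_card h1).trans (card_vanish2 hP hi₀ (fun i => hall i i₀) hq he hj2
          (by omega))
        have h3 : Jset (n' + 1) j =
            univ.filter fun i : Fin (n' + 2) => (i : ℕ) = 1 ∨ (i : ℕ) = j := by
          rw [Jset]
          refine filter_congr fun i _ => ?_
          rw [if_neg (not_not.2 hne), or_comm]
        rw [h3]
        refine h2.trans (Nat.mul_le_mul_right _ (Nat.le_succ _))
      · have h1 : V j = ∅ := by
          rw [eq_empty_iff_forall_notMem]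
          intro x hx
          obtain ⟨-, -, -, -, h5⟩ := hVx x hx
          rcases h5 with h5 | h5
          · exact h5 hne
          · exact hall h5
        rw [h1, card_empty]
        exact Nat.zero_le _
    · have hj : j = 1 := by omega
      subst hj
      obtain rfl : n = 1 := by omega
      have h1 : V 1 ⊆ vanish X q 1 := by
        intro x hx
        obtain ⟨h1, -, h3, h4, -⟩ := hVx x hx
        rw [vanish, mem_filter]
        exact ⟨h1, h3, h4⟩
      have h2 := (card_le_card h1).trans card_vanish_one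
      exact h2.trans (Nat.le_mul_of_pos_left _ (Nat.succ_pos _))

end Pool.Agent.H857.PB
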