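import Mathlib

/-!
# Hensel's lemma for power series over a field
-/

set_option autoImplicit false

namespace Pool.Agent.H857.PB

open PowerSeries

variable {K : Type*} [Field K]

lemma mem_span_X_pow {n : ℕ} {f : K⟦X⟧} :
    f ∈ (Ideal.span {(X : K⟦X⟧)}) ^ n ↔ ∀ m < n, coeff m f = 0 := by
  rw [Ideal.span_singleton_pow, Ideal.mem_span_singleton, X_pow_dvd_iff]

lemma smodEq_iff {n : ℕ} {f g : K⟦X⟧} :
    f ≡ g [SMOD ((Ideal.span {(X : K⟦X⟧)}) ^ n • ⊤ : Submodule K⟦X⟧ K⟦X⟧)] ↔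
      ∀ m < n, coeff m f = coeff m g := by
  rw [SModEq.sub_mem, smul_eq_mul, Ideal.mul_top, mem_span_X_pow]
  simp only [map_sub, sub_eq_zero]

instance isAdicComplete : IsAdicComplete (Ideal.span {(X : K⟦X⟧)}) K⟦X⟧ where
  haus' x hx := by
    ext m
    have h1 := (smodEq_iff (n := m + 1)).1 (hx (m + 1)) m (Nat.lt_succ_self m)
    rw [h1]
  prec' f hf := by
    refine ⟨PowerSeries.mk fun m => coeff m (f (m + 1)), fun n => ?_⟩
    rw [smodEq_iff]
    intro m hm
    rw [coeff_mk]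
    exact ((smodEq_iff.1 (hf (show m + 1 ≤ n from hm))) m (Nat.lt_succ_self m)).symm

/-- Hensel's lemma for power series. -/
theorem hensel (f : Polynomial K⟦X⟧) (hf : f.Monic) (a : K)
    (h0 : constantCoeff (f.eval (C a)) = 0)
    (h1 : constantCoeff (f.derivative.eval (C a)) ≠ 0) :
    ∃ U : K⟦X⟧, f.eval U = 0 ∧ constantCoeff U = a := by
  have hH : HenselianRing K⟦X⟧ (Ideal.span {(X : K⟦X⟧)}) := inferInstance
  obtain ⟨U, hU, hUa⟩ := hH.is_henselian f hf (C a) (by
    rw [Ideal.mem_span_singleton, X_dvd_iff]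
    exact h0) (by
    have h2 : IsUnit (f.derivative.eval (C a)) := by
      rw [isUnit_iff_constantCoeff]
      exact isUnit_iff_ne_zero.2 h1
    exact h2.map _)
  refine ⟨U, hU, ?_⟩
  rw [Ideal.mem_span_singleton, X_dvd_iff, map_sub, constantCoeff_C, sub_eq_zero] at hUa
  exact hUa

end Pool.Agent.H857.PB
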