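import Pool.Agent.H857.PB.Pencil

/-!
# The roots near infinity of a pencil
-/

set_option autoImplicit false

namespace Pool.Agent.H857.PB

open PowerSeries

/-- The field of Laurent series. -/
abbrev LL : Type := FractionRing ℂ⟦X⟧

/-- The embedding of the power series. -/
noncomputable def th : ℂ⟦X⟧ →+* LL := algebraMap ℂ⟦X⟧ LL

lemma th_inj : Function.Injective th := IsFractionRing.injective ℂ⟦X⟧ LL

lemma th_X : th X ≠ 0 := by
  rw [Ne, map_eq_zero_iff th th_inj]
  exact X_ne_zero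

/-- The coefficients as a function on the natural numbers; the one of index `0` is not used. -/
noncomputable def cf {n : ℕ} (x' : Fin n → ℂ) (k : ℕ) : ℂ := if h : k - 1 < n then x' ⟨k - 1, h⟩ else 0

lemma cf_succ {n : ℕ} (x' : Fin n → ℂ) (i : Fin n) : cf x' ((i : ℕ) + 1) = x' i := by
  rw [cf, dif_pos (by simp)]
  congr 1

lemma hp_cons_eval {S : Type} [CommRing S] {n : ℕ} (t : S) (v : Fin n → S) (y : S) :
    (hp (Fin.cons t v : Fin (n + 1) → S)).eval y =
      y ^ (n + 1) + (t + ∑ i, v i * y ^ ((i : ℕ) + 1)) := by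
  rw [hp, Polynomial.eval_add, Polynomial.eval_pow, Polynomial.eval_X, Polynomial.eval_finsetSum,
    Fin.sum_univ_succ]
  simp

/-- A monic polynomial of degree `g` with `g` different roots. -/
lemma hp_eq_prod {S : Type} [Field S] {g : ℕ} {x y : Fin g → S} (hy : Function.Injective y)
    (h : ∀ j, (hp x).eval (y j) = 0) :
    hp x = ∏ j, (Polynomial.X - Polynomial.C (y j)) := by
  have hm : (∏ j, (Polynomial.X - Polynomial.C (y j))).Monic :=
    Polynomial.monic_prod_of_monic _ _ fun j _ => Polynomial.monic_X_sub_C _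
  have hdeg : (∏ j, (Polynomial.X - Polynomial.C (y j))).natDegree = g := by
    rw [Polynomial.natDegree_prod_of_monic _ _ fun j _ => Polynomial.monic_X_sub_C _]
    simp
  rcases Nat.eq_zero_or_pos g with rfl | hg
  · rw [(hp_monic x).natDegree_eq_zero.1 (hp_natDegree x), hm.natDegree_eq_zero.1 hdeg]
  by_contra hne
  have h1 : (hp x - ∏ j, (Polynomial.X - Polynomial.C (y j))).natDegree < g := by
    have h2 : (hp x - ∏ j, (Polynomial.X - Polynomial.C (y j))).degree < (hp x).degree :=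
      Polynomial.degree_sub_lt_left (by
        rw [Polynomial.degree_eq_natDegree (hp_monic x).ne_zero,
          Polynomial.degree_eq_natDegree hm.ne_zero, hdeg, hp_natDegree]) (hp_monic x).ne_zero (by
        rw [(hp_monic x).leadingCoeff, hm.leadingCoeff])
    rw [Polynomial.degree_eq_natDegree (hp_monic x).ne_zero, hp_natDegree] at h2
    exact (Polynomial.natDegree_lt_iff_degree_lt (sub_ne_zero.2 hne)).2 h2
  apply hne
  rw [← sub_eq_zero]
  apply Polynomial.eq_zero_of_natDegree_lt_card_of_eval_eq_zero _ hy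
  · intro j
    rw [Polynomial.eval_sub, h, Polynomial.eval_prod, Finset.prod_eq_zero (Finset.mem_univ j),
      sub_zero]
    simp
  · rw [Fintype.card_fin]
    exact h1

/-- The roots of the pencil near infinity. -/
theorem exists_laurent {n : ℕ} (x' : Fin n → ℂ) (q : ℂ) {U B : ℂ⟦X⟧}
    (hS : Sol q (n + 1) (cf x') U B) {ω : ℂ} (hω : IsPrimitiveRoot ω (n + 1)) :
    ∃ a b : Fin (n + 1) → LL, (∀ j : Fin (n + 1), a j = th (rot (ω ^ (j : ℕ)) B) / th X) ∧
      (∀ j, a j * b j = th (C q)) ∧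
      hp (Fin.cons (-(1 / (th X) ^ (n + 1))) (fun i => th (C (x' i))) : Fin (n + 1) → LL) =
        ∏ j, (Polynomial.X - Polynomial.C (a j + b j)) := by
  have hω0 : ω ≠ 0 := hω.ne_zero (Nat.succ_ne_zero n)
  have hX := th_X
  have hsol : ∀ j : Fin (n + 1), SolAt q (n + 1) (cf x') (ω ^ (j : ℕ))⁻¹
      (rot (ω ^ (j : ℕ)) U) (rot (ω ^ (j : ℕ)) B) := fun j =>
    hS.rot (pow_ne_zero _ hω0) (by rw [← pow_mul, mul_comm, pow_mul, hω.pow_eq_one, one_pow])
  have hB0 : ∀ j : Fin (n + 1), th (rot (ω ^ (j : ℕ)) B) ≠ 0 := by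
    intro j h0
    rw [map_eq_zero_iff th th_inj] at h0
    have h1 := (hsol j).B0
    rw [h0, map_zero] at h1
    exact inv_ne_zero (pow_ne_zero _ hω0) h1.symm
  refine ⟨fun j => th (rot (ω ^ (j : ℕ)) B) / th X, fun j => th (C q) * th X /
    th (rot (ω ^ (j : ℕ)) B), fun j => rfl, fun j => ?_, ?_⟩
  · have := hB0 j
    field_simp
  have hy : ∀ j : Fin (n + 1), th (rot (ω ^ (j : ℕ)) B) / th X + th (C q) * th X /
      th (rot (ω ^ (j : ℕ)) B) = th (rot (ω ^ (j : ℕ)) U) / th X := by
    intro j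
    have h0 := hB0 j
    have h1 := congrArg th (hsol j).eqB
    rw [map_add, map_sub, map_mul, map_mul, map_pow, map_pow, map_zero] at h1
    field_simp
    linear_combination h1
  simp only [hy]
  apply hp_eq_prod
  · intro j l hjl
    have h1 : th (rot (ω ^ (j : ℕ)) U) = th (rot (ω ^ (l : ℕ)) U) := by
      have h2 : th (rot (ω ^ (j : ℕ)) U) / th X = th (rot (ω ^ (l : ℕ)) U) / th X := hjl
      rwa [div_left_inj' hX] at h2
    have h2 := congrArg constantCoeff (th_inj h1)
    rw [(hsol j).U0, (hsol l).U0, inv_inj] at h2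
    exact Fin.ext (hω.pow_inj j.2 l.2 h2)
  · intro j
    rw [hp_cons_eval]
    have h1 := congrArg th (hsol j).eqU
    rw [map_add, map_sum, map_one, map_pow] at h1
    have h2 : ∑ k ∈ Finset.Ico 1 (n + 1), th (C (cf x' k) * X ^ (n + 1 - k) *
        rot (ω ^ (j : ℕ)) U ^ k) = ∑ i : Fin n, th (C (x' i)) * th X ^ (n - (i : ℕ)) *
          th (rot (ω ^ (j : ℕ)) U) ^ ((i : ℕ) + 1) := by
      rw [Finset.sum_Ico_eq_sum_range, Nat.add_sub_cancel, Finset.sum_range]
      refine Finset.sum_congr rfl fun i _ => ?_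
      rw [add_comm 1 (i : ℕ), cf_succ, map_mul, map_mul, map_pow, map_pow,
        Nat.add_sub_add_right]
    rw [h2] at h1
    have h3 : ∀ i : Fin n, th (C (x' i)) * (th (rot (ω ^ (j : ℕ)) U) / th X) ^ ((i : ℕ) + 1) =
        (th (C (x' i)) * th X ^ (n - (i : ℕ)) * th (rot (ω ^ (j : ℕ)) U) ^ ((i : ℕ) + 1)) /
          th X ^ (n + 1) := by
      intro i
      have h4 : th X ^ (n + 1) = th X ^ (n - (i : ℕ)) * th X ^ ((i : ℕ) + 1) := by
        rw [← pow_add]
        congr 1
        have := i.2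
        omega
      rw [h4, div_pow]
      have h5 : th X ^ (n - (i : ℕ)) ≠ 0 := pow_ne_zero _ hX
      have h6 : th X ^ ((i : ℕ) + 1) ≠ 0 := pow_ne_zero _ hX
      field_simp
    rw [Finset.sum_congr rfl fun i _ => h3 i, ← Finset.sum_div, div_pow]
    have h6 : th X ^ (n + 1) ≠ 0 := pow_ne_zero _ hX
    field_simp
    linear_combination h1

end Pool.Agent.H857.PB
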