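import Pool.Agent.H857.PB.Series

/-!
# The other roots near infinity, and multiplicative relations
-/

set_option autoImplicit false

namespace Pool.Agent.H857.PB

open PowerSeries

/-- `U / w` is a root `y` of `y ^ g + ∑ c k y ^ k = w ^ (-g)` with leading coefficient `a`, and
`β = B / w` satisfies `β + q / β = y`. -/
structure SolAt (q : ℂ) (g : ℕ) (c : ℕ → ℂ) (a : ℂ) (U B : ℂ⟦X⟧) : Prop where
  eqU : U ^ g + ∑ k ∈ Finset.Ico 1 g, C (c k) * X ^ (g - k) * U ^ k = 1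
  U0 : constantCoeff U = a
  eqB : B ^ 2 - U * B + C q * X ^ 2 = 0
  B0 : constantCoeff B = a

variable {q : ℂ} {g : ℕ} {c : ℕ → ℂ} {U B : ℂ⟦X⟧}

/-- The power series `z⁻¹ * f (z w)`. -/
noncomputable def rot (z : ℂ) (f : ℂ⟦X⟧) : ℂ⟦X⟧ := C z⁻¹ * rescale z f

lemma rescale_C (z a : ℂ) : rescale z (C a : ℂ⟦X⟧) = C a := by
  ext n
  rw [coeff_rescale, coeff_C]
  split_ifs with h
  · rw [h, pow_zero, one_mul]
  · rw [mul_zero]

lemma rescale_X (z : ℂ) : rescale z (X : ℂ⟦X⟧) = C z * X := by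
  ext n
  rw [coeff_rescale, coeff_C_mul, coeff_X]
  split_ifs with h
  · rw [h, pow_one]
  · rw [mul_zero, mul_zero]

theorem Sol.rot (h : Sol q g c U B) {z : ℂ} (hz1 : z ≠ 0) (hz : z ^ g = 1) :
    SolAt q g c z⁻¹ (rot z U) (rot z B) := by
  have hzC : (C z⁻¹ : ℂ⟦X⟧) * C z = 1 := by
    rw [← map_mul, inv_mul_cancel₀ hz1, map_one]
  have hzX := rescale_X z
  refine ⟨?_, ?_, ?_, ?_⟩
  · have h1 := congrArg (rescale z) h.eqU
    rw [map_add, map_pow, map_sum, map_one] at h1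
    rw [← h1]
    congr 1
    · rw [PB.rot, mul_pow, ← map_pow, inv_pow, hz, inv_one, map_one, one_mul]
    · refine Finset.sum_congr rfl fun k hk => ?_
      have hk' := Finset.mem_Ico.1 hk
      rw [map_mul, map_mul, map_pow, map_pow, rescale_C, hzX, PB.rot, mul_pow, mul_pow]
      have h2 : (C z : ℂ⟦X⟧) ^ (g - k) = C z⁻¹ ^ k := by
        have h3 : (C z : ℂ⟦X⟧) ^ (g - k) * C z ^ k = 1 := by
          rw [← pow_add, Nat.sub_add_cancel hk'.2.le, ← map_pow, hz, map_one]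
        have h4 : (C z⁻¹ : ℂ⟦X⟧) ^ k * C z ^ k = 1 := by
          rw [← mul_pow, hzC, one_pow]
        calc (C z : ℂ⟦X⟧) ^ (g - k) = C z ^ (g - k) * (C z⁻¹ ^ k * C z ^ k) := by
              rw [h4, mul_one]
          _ = (C z ^ (g - k) * C z ^ k) * C z⁻¹ ^ k := by ring
          _ = _ := by rw [h3, one_mul]
      rw [h2]
      ring
  · rw [PB.rot, map_mul, constantCoeff_C, ← coeff_zero_eq_constantCoeff_apply, coeff_rescale,
      coeff_zero_eq_constantCoeff_apply, h.U0]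
    simp
  · have h1 := congrArg (rescale z) h.eqB
    rw [map_add, map_sub, map_mul, map_mul, map_pow, map_pow, rescale_C, hzX, map_zero] at h1
    rw [PB.rot, PB.rot]
    have h2 : (C z⁻¹ : ℂ⟦X⟧) ^ 2 * (C q * (C z * X) ^ 2) = C q * X ^ 2 := by
      linear_combination (C q * X ^ 2 * (C z⁻¹ * C z + 1)) * hzC
    linear_combination (C z⁻¹) ^ 2 * h1 - h2
  · rw [PB.rot, map_mul, constantCoeff_C, ← coeff_zero_eq_constantCoeff_apply, coeff_rescale,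
      coeff_zero_eq_constantCoeff_apply, h.B0]
    simp

lemma derivative_rescale (z : ℂ) (f : ℂ⟦X⟧) :
    X * d⁄dX ℂ (rescale z f) = rescale z (X * d⁄dX ℂ f) := by
  ext n
  rw [coeff_rescale]
  cases n with
  | zero => simp
  | succ n =>
    rw [coeff_succ_X_mul, coeff_succ_X_mul, coeff_derivative, coeff_derivative, coeff_rescale]
    ring

lemma rescale_inv {z : ℂ} {f : ℂ⟦X⟧} (hf : constantCoeff f ≠ 0) :
    rescale z f⁻¹ = (rescale z f)⁻¹ := by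
  have h0 : constantCoeff (rescale z f) ≠ 0 := by
    rw [← coeff_zero_eq_constantCoeff_apply, coeff_rescale, coeff_zero_eq_constantCoeff_apply,
      pow_zero, one_mul]
    exact hf
  rw [PowerSeries.eq_inv_iff_mul_eq_one h0, ← map_mul, PowerSeries.inv_mul_cancel _ hf, map_one]

lemma eta_rot {z : ℂ} (hz : z ≠ 0) {f : ℂ⟦X⟧} (hf : constantCoeff f ≠ 0) :
    eta (rot z f) = rescale z (eta f) := by
  have hzC : (C z⁻¹ : ℂ⟦X⟧) * C z = 1 := by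
    rw [← map_mul, inv_mul_cancel₀ hz, map_one]
  have h1 : (C z⁻¹ : ℂ⟦X⟧)⁻¹ = C z := by
    rw [C_inv, inv_inv]
  have h2 : d⁄dX ℂ (C z⁻¹ * rescale z f) = C z⁻¹ * d⁄dX ℂ (rescale z f) := by
    rw [Derivation.leibniz, derivative_C, smul_zero, add_zero, smul_eq_mul]
  rw [eta, eta, rot, PowerSeries.mul_inv_rev, h1, h2, map_mul, rescale_inv hf,
    ← derivative_rescale]
  linear_combination (X * d⁄dX ℂ (rescale z f) * (rescale z f)⁻¹) * hzC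

lemma coeff_eta_rot {z : ℂ} (hz : z ≠ 0) {f : ℂ⟦X⟧} (hf : constantCoeff f ≠ 0) (n : ℕ) :
    coeff n (eta (rot z f)) = z ^ n * coeff n (eta f) := by
  rw [eta_rot hz hf, coeff_rescale]

/-- The logarithmic derivative as a homomorphism. -/
noncomputable def etaHom : ℂ⟦X⟧ˣ →* Multiplicative ℂ⟦X⟧ where
  toFun u := Multiplicative.ofAdd (X * d⁄dX ℂ (u : ℂ⟦X⟧) * ((u⁻¹ : ℂ⟦X⟧ˣ) : ℂ⟦X⟧))
  map_one' := by simp
  map_mul' u v := by
    rw [← ofAdd_add]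
    congr 1
    rw [mul_inv, Units.val_mul, Units.val_mul, Derivation.leibniz, smul_eq_mul, smul_eq_mul]
    have hu : (u : ℂ⟦X⟧) * ((u⁻¹ : ℂ⟦X⟧ˣ) : ℂ⟦X⟧) = 1 := u.mul_inv
    have hv : (v : ℂ⟦X⟧) * ((v⁻¹ : ℂ⟦X⟧ˣ) : ℂ⟦X⟧) = 1 := v.mul_inv
    linear_combination (X * d⁄dX ℂ (v : ℂ⟦X⟧) * ((v⁻¹ : ℂ⟦X⟧ˣ) : ℂ⟦X⟧)) * hu +
      (X * d⁄dX ℂ (u : ℂ⟦X⟧) * ((u⁻¹ : ℂ⟦X⟧ˣ) : ℂ⟦X⟧)) * hv

lemma etaHom_val (u : ℂ⟦X⟧ˣ) : Multiplicative.toAdd (etaHom u) = eta u := by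
  have h0 : constantCoeff (u : ℂ⟦X⟧) ≠ 0 :=
    isUnit_iff_ne_zero.1 (isUnit_iff_constantCoeff.1 u.isUnit)
  have h1 : ((u⁻¹ : ℂ⟦X⟧ˣ) : ℂ⟦X⟧) = (u : ℂ⟦X⟧)⁻¹ := by
    rw [PowerSeries.eq_inv_iff_mul_eq_one h0]
    exact u.inv_mul
  change X * d⁄dX ℂ (u : ℂ⟦X⟧) * ((u⁻¹ : ℂ⟦X⟧ˣ) : ℂ⟦X⟧) = _
  rw [h1, eta]

lemma zpow_sum₀ {L : Type*} [Field L] {x : L} (hx : x ≠ 0) {ι : Type*} [Fintype ι] (k : ι → ℤ) :
    x ^ (∑ i, k i) = ∏ i, x ^ k i := by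
  classical
  have h : ∀ s : Finset ι, x ^ (∑ i ∈ s, k i) = ∏ i ∈ s, x ^ k i := by
    intro s
    induction s using Finset.induction_on with
    | empty => simp
    | insert a s ha ih => rw [Finset.sum_insert ha, Finset.prod_insert ha, zpow_add₀ hx, ih]
  exact h Finset.univ

/-- A multiplicative relation with a constant value between Laurent series `b i / w`. -/
theorem const_rel {L : Type*} [Field L] (θ : ℂ⟦X⟧ →+* L) (hθ : Function.Injective θ)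
    {ι : Type*} [Fintype ι] (b : ι → ℂ⟦X⟧) (hb : ∀ i, constantCoeff (b i) ≠ 0) (k : ι → ℤ)
    (e : ℂ) (he : e ≠ 0) (h : ∏ i, (θ (b i) / θ X) ^ k i = θ (C e)) :
    ∑ i, k i = 0 ∧ ∑ i, k i • eta (b i) = 0 := by
  classical
  have hX : θ X ≠ 0 := by
    rw [Ne, map_eq_zero_iff θ hθ]
    exact X_ne_zero
  let u : ι → ℂ⟦X⟧ˣ := fun i =>
    (isUnit_iff_constantCoeff.2 (isUnit_iff_ne_zero.2 (hb i)) : IsUnit (b i)).unit
  have hu : ∀ i, ((u i : ℂ⟦X⟧ˣ) : ℂ⟦X⟧) = b i := fun i => rfl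
  set v : ℂ⟦X⟧ˣ := ∏ i, u i ^ k i with hv
  have hval : ∀ (x : ℂ⟦X⟧ˣ) (n : ℤ), θ ((x ^ n : ℂ⟦X⟧ˣ) : ℂ⟦X⟧) = θ x ^ n := by
    intro x n
    have h1 := map_zpow (Units.map (θ : ℂ⟦X⟧ →* L)) x n
    have h2 := congrArg (fun y : Lˣ => (y : L)) h1
    simp only [Units.val_zpow_eq_zpow_val] at h2
    exact h2
  have h1 : θ (v : ℂ⟦X⟧) = θ (C e) * θ X ^ (∑ i, k i) := by
    rw [hv, Units.coe_prod, map_prod, ← h, Finset.prod_congr rfl fun i _ => hval (u i) (k i)]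
    have h2 : (θ X : L) ^ (∑ i, k i) = ∏ i, θ X ^ k i := zpow_sum₀ hX k
    rw [h2, ← Finset.prod_mul_distrib]
    refine Finset.prod_congr rfl fun i _ => ?_
    rw [hu, div_zpow, div_mul_cancel₀ _ (zpow_ne_zero _ hX)]
  have hv0 : constantCoeff (v : ℂ⟦X⟧) ≠ 0 :=
    isUnit_iff_ne_zero.1 (isUnit_iff_constantCoeff.1 v.isUnit)
  have hvi0 : constantCoeff ((v⁻¹ : ℂ⟦X⟧ˣ) : ℂ⟦X⟧) ≠ 0 :=
    isUnit_iff_ne_zero.1 (isUnit_iff_constantCoeff.1 (v⁻¹).isUnit)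
  have hs : ∑ i, k i = 0 := by
    rcases lt_trichotomy (∑ i, k i) 0 with hlt | heq | hgt
    · exfalso
      obtain ⟨n, hn⟩ := Int.eq_ofNat_of_zero_le (show 0 ≤ - ∑ i, k i by omega)
      have hn0 : n ≠ 0 := by omega
      have h2 : θ ((v⁻¹ : ℂ⟦X⟧ˣ) : ℂ⟦X⟧) = θ (C e⁻¹ * X ^ n) := by
        have h3 : θ ((v⁻¹ : ℂ⟦X⟧ˣ) : ℂ⟦X⟧) * θ v = 1 := by
          rw [← map_mul, v.inv_mul, map_one]
        have h4 : θ (C e⁻¹) * θ (C e) = 1 := by
          rw [← map_mul, ← map_mul, inv_mul_cancel₀ he, map_one, map_one]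
        have h5 : (θ X : L) ^ (∑ i, k i) * θ X ^ n = 1 := by
          rw [← zpow_natCast, ← zpow_add₀ hX, show (∑ i, k i) + (n : ℤ) = 0 by omega, zpow_zero]
        rw [map_mul, map_pow]
        calc θ ((v⁻¹ : ℂ⟦X⟧ˣ) : ℂ⟦X⟧) = θ ((v⁻¹ : ℂ⟦X⟧ˣ) : ℂ⟦X⟧) *
              ((θ (C e⁻¹) * θ (C e)) * (θ X ^ (∑ i, k i) * θ X ^ n)) := by
                rw [h4, h5, mul_one, mul_one]
          _ = (θ ((v⁻¹ : ℂ⟦X⟧ˣ) : ℂ⟦X⟧) * (θ (C e) * θ X ^ (∑ i, k i))) *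
              (θ (C e⁻¹) * θ X ^ n) := by ring
          _ = _ := by rw [← h1, h3, one_mul]
      have h3 := hθ h2
      apply hvi0
      rw [h3, map_mul, map_pow, constantCoeff_X, zero_pow hn0, mul_zero]
    · exact heq
    · exfalso
      obtain ⟨n, hn⟩ := Int.eq_ofNat_of_zero_le hgt.le
      have hn0 : n ≠ 0 := by omega
      rw [hn, zpow_natCast, ← map_pow, ← map_mul] at h1
      have h3 := hθ h1
      apply hv0
      rw [h3, map_mul, map_pow, constantCoeff_X, zero_pow hn0, mul_zero]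
  refine ⟨hs, ?_⟩
  rw [hs, zpow_zero, mul_one] at h1
  have h2 := hθ h1
  have h3 : Multiplicative.toAdd (etaHom v) = 0 := by
    rw [etaHom_val, h2, eta, derivative_C, mul_zero, zero_mul]
  have h4 : Multiplicative.toAdd (etaHom v) = ∑ i, k i • eta (b i) := by
    rw [hv, map_prod, toAdd_prod]
    refine Finset.sum_congr rfl fun i _ => ?_
    rw [map_zpow, toAdd_zpow, etaHom_val, hu]
  rw [← h4, h3]

end Pool.Agent.H857.PB
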