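import Pool.Agent.H857.PB.Sym
import Pool.Agent.H857.PB.Rot

/-!
# The universal polynomial and the coefficients
-/

set_option autoImplicit false

namespace Pool.Agent.H857.PB

open MvPolynomial

/-- The monic polynomial of degree `g` with the lower coefficients `x`. -/
noncomputable def hp {S : Type} [CommRing S] {g : ℕ} (x : Fin g → S) : Polynomial S :=
  Polynomial.X ^ g + ∑ i, Polynomial.C (x i) * Polynomial.X ^ (i : ℕ)

section hp

variable {S : Type} [CommRing S] {g : ℕ}

lemma hp_map {S' : Type} [CommRing S'] (ψ : S →+* S') (x : Fin g → S) :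
    (hp x).map ψ = hp (fun i => ψ (x i)) := by
  rw [hp, hp, Polynomial.map_add, Polynomial.map_pow, Polynomial.map_X, Polynomial.map_sum]
  congr 1
  refine Finset.sum_congr rfl fun i _ => ?_
  rw [Polynomial.map_mul, Polynomial.map_C, Polynomial.map_pow, Polynomial.map_X]

lemma hp_sum_degree_lt (x : Fin g → S) :
    (∑ i, Polynomial.C (x i) * Polynomial.X ^ (i : ℕ)).degree < (g : WithBot ℕ) := by
  refine (Polynomial.degree_sum_le _ _).trans_lt ((Finset.sup_lt_iff ?_).2 ?_)
  · exact WithBot.bot_lt_coe g
  intro k _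
  refine (Polynomial.degree_C_mul_X_pow_le _ _).trans_lt ?_
  exact_mod_cast k.2

lemma hp_monic (x : Fin g → S) : (hp x).Monic := Polynomial.monic_X_pow_add (hp_sum_degree_lt x)

lemma hp_natDegree [Nontrivial S] (x : Fin g → S) : (hp x).natDegree = g := by
  rw [hp, Polynomial.natDegree_add_eq_left_of_degree_lt, Polynomial.natDegree_X_pow]
  rw [Polynomial.degree_X_pow]
  exact hp_sum_degree_lt x

lemma hp_coeff (x : Fin g → S) (i : Fin g) : (hp x).coeff i = x i := by
  rw [hp, Polynomial.coeff_add, Polynomial.coeff_X_pow, if_neg (by have := i.2; omega), zero_add,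
    Polynomial.finsetSum_coeff, Finset.sum_eq_single i]
  · rw [Polynomial.coeff_C_mul_X_pow, if_pos rfl]
  · intro j _ hj
    rw [Polynomial.coeff_C_mul_X_pow, if_neg]
    intro h
    exact hj (Fin.ext h.symm)
  · intro h
    exact absurd (Finset.mem_univ i) h

/-- The elementary symmetric functions of the roots in terms of the coefficients. -/
def ec (x : Fin g → S) (i : Fin g) : S := (-1) ^ ((i : ℕ) + 1) * x i.rev

lemma esymm_of_prod {x y : Fin g → S}
    (h : hp x = ∏ j, (Polynomial.X - Polynomial.C (y j))) (i : Fin g) :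
    aeval y (esymm (Fin g) ℤ ((i : ℕ) + 1)) = ec x i := by
  have h1 := hp_coeff x i.rev
  have h2 : (∏ j, (Polynomial.X - Polynomial.C (y j))) =
      (((Finset.univ : Finset (Fin g)).val.map y).map fun t =>
        Polynomial.X - Polynomial.C t).prod := by
    rw [Multiset.map_map]
    rfl
  rw [h, h2, Multiset.prod_X_sub_C_coeff _ (by
    rw [Multiset.card_map, Finset.card_val, Finset.card_univ, Fintype.card_fin]
    exact (Fin.rev i).2.le)] at h1
  rw [Multiset.card_map, Finset.card_val, Finset.card_univ, Fintype.card_fin] at h1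
  have h3 : g - (i.rev : ℕ) = (i : ℕ) + 1 := by
    rw [Fin.val_rev]
    have := i.2
    omega
  rw [h3] at h1
  rw [aeval_esymm_eq_multiset_esymm, ec, ← h1, ← mul_assoc, ← mul_pow]
  simp

end hp

section value

variable {g : ℕ} (P : MvPolynomial (Fin g) RR)

/-- The value of the universal polynomial at the coefficients `x`. -/
noncomputable def val {S : Type} [CommRing S] (q e : S) (x : Fin g → S) : S :=
  eval₂ (evR q e) (ec x) P

lemma evR_comp {S S' : Type} [CommRing S] [CommRing S'] (ψ : S →+* S') (q e : S) :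
    ψ.comp (evR q e) = evR (ψ q) (ψ e) := by
  apply MvPolynomial.ringHom_ext
  · intro r
    simp [evR]
  · intro i
    fin_cases i <;> simp [evR]

lemma map_val {S S' : Type} [CommRing S] [CommRing S'] (ψ : S →+* S') (q e : S)
    (x : Fin g → S) : ψ (val P q e x) = val P (ψ q) (ψ e) (fun i => ψ (x i)) := by
  rw [val, val, MvPolynomial.eval₂_comp_left, evR_comp]
  congr 1
  funext i
  simp [ec]

/-- The polynomial is universal for the relation with the exponents `m`. -/
def IsUniv (m : Fin g → ℕ) : Prop :=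
  ∀ (S : Type) [CommRing S] (q e : S) (a b : Fin g → S), (∀ i, a i * b i = q) →
    eval₂ (evR q e) (fun i : Fin g => aeval (fun j => a j + b j) (esymm (Fin g) ℤ (i + 1))) P =
      ∏ π : Equiv.Perm (Fin g), ∏ ε : Fin g → Bool,
        (∏ i, (if ε i then b (π i) else a (π i)) ^ m i - e)

variable {P} {m : Fin g → ℕ}

lemma val_eq (hP : IsUniv P m) {S : Type} [CommRing S] {q e : S} {a b x : Fin g → S}
    (hab : ∀ i, a i * b i = q)
    (hx : hp x = ∏ j, (Polynomial.X - Polynomial.C (a j + b j))) :
    val P q e x = ∏ π : Equiv.Perm (Fin g), ∏ ε : Fin g → Bool,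
        (∏ i, (if ε i then b (π i) else a (π i)) ^ m i - e) := by
  rw [← hP S q e a b hab, val]
  congr 1
  funext i
  exact (esymm_of_prod hx i).symm

lemma val_eq_zero_iff (hP : IsUniv P m) {S : Type} [CommRing S] [IsDomain S] {q e : S}
    {a b x : Fin g → S} (hab : ∀ i, a i * b i = q)
    (hx : hp x = ∏ j, (Polynomial.X - Polynomial.C (a j + b j))) :
    val P q e x = 0 ↔ ∃ (π : Equiv.Perm (Fin g)) (ε : Fin g → Bool),
      ∏ i, (if ε i then b (π i) else a (π i)) ^ m i = e := by
  rw [val_eq hP hab hx]
  simp only [Finset.prod_eq_zero_iff, Finset.mem_univ, true_and, sub_eq_zero]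

/-- The relation with the exponents `m` and the value `e`. -/
def Rel {S : Type} [CommRing S] (m : Fin g → ℕ) (q e : S) (x : Fin g → S) : Prop :=
  ∃ a b : Fin g → S, (∀ i, a i * b i = q) ∧
    hp x = ∏ j, (Polynomial.X - Polynomial.C (a j + b j)) ∧ ∏ i, a i ^ m i = e

lemma val_of_rel (hP : IsUniv P m) {S : Type} [CommRing S] [IsDomain S] {q e : S}
    {x : Fin g → S} (h : Rel m q e x) : val P q e x = 0 := by
  obtain ⟨a, b, hab, hx, hm⟩ := h
  rw [val_eq_zero_iff hP hab hx]
  exact ⟨1, fun _ => false, by simpa using hm⟩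

/-- The value at polynomials of degree at most one has bounded degree. -/
lemma natDegree_val_le (P : MvPolynomial (Fin g) RR) (q e : ℂ) (x : Fin g → Polynomial ℂ)
    (hx : ∀ i, (x i).natDegree ≤ 1) :
    (val P (Polynomial.C q) (Polynomial.C e) x).natDegree ≤ P.totalDegree := by
  have h1 : val P (Polynomial.C q) (Polynomial.C e) x =
      aeval (ec x) (map (evR q e) P) := by
    rw [val, ← evR_comp, aeval_def, eval₂_map]
    rfl
  rw [h1]
  refine (aeval_natDegree_le (m := P.totalDegree) (n := 1) _ ?_ _ ?_).trans (by rw [mul_one])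
  · exact Finset.sup_mono (support_map_subset _ _)
  · intro i
    rw [ec]
    refine (Polynomial.natDegree_mul_le).trans ?_
    have h2 : (((-1 : Polynomial ℂ)) ^ ((i : ℕ) + 1)).natDegree = 0 := by
      have h3 : ((-1 : Polynomial ℂ)) = Polynomial.C (-1) := by simp
      rw [h3, ← Polynomial.C_pow, Polynomial.natDegree_C]
    rw [h2, zero_add]
    exact hx _

end value

end Pool.Agent.H857.PB
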