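import Pool.Agent.H857.PB.Hensel

/-!
# The roots of a polynomial near infinity as power series
-/

set_option autoImplicit false

namespace Pool.Agent.H857.PB

open PowerSeries

/-- `U / w` and `B / w` are a root `y` of `y ^ g + ∑ c k y ^ k = w ^ (-g)`, `1 ≤ k < g`, and a
number `β` with `β + q / β = y`, as Laurent series in `w`. -/
structure Sol (q : ℂ) (g : ℕ) (c : ℕ → ℂ) (U B : ℂ⟦X⟧) : Prop where
  eqU : U ^ g + ∑ k ∈ Finset.Ico 1 g, C (c k) * X ^ (g - k) * U ^ k = 1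
  U0 : constantCoeff U = 1
  eqB : B ^ 2 - U * B + C q * X ^ 2 = 0
  B0 : constantCoeff B = 1

lemma constantCoeff_eval (f : Polynomial ℂ⟦X⟧) (a : ℂ) :
    constantCoeff (f.eval (C a)) = (f.map constantCoeff).eval a := by
  rw [Polynomial.eval_map, ← Polynomial.eval₂_id (p := f), Polynomial.hom_eval₂]
  simp

lemma exists_U {g : ℕ} (hg : 0 < g) (c : ℕ → ℂ) :
    ∃ U : ℂ⟦X⟧, U ^ g + ∑ k ∈ Finset.Ico 1 g, C (c k) * X ^ (g - k) * U ^ k = 1 ∧
      constantCoeff U = 1 := by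
  set r : Polynomial ℂ⟦X⟧ := ∑ k ∈ Finset.Ico 1 g,
    Polynomial.C (C (c k) * X ^ (g - k)) * Polynomial.X ^ k - 1 with hr
  have hdeg : r.degree < g := by
    rw [hr]
    refine (Polynomial.degree_sub_le _ _).trans_lt (max_lt ?_ ?_)
    · refine (Polynomial.degree_sum_le _ _).trans_lt ((Finset.sup_lt_iff ?_).2 ?_)
      · exact WithBot.bot_lt_coe g
      intro k hk
      refine (Polynomial.degree_C_mul_X_pow_le _ _).trans_lt ?_
      exact_mod_cast (Finset.mem_Ico.1 hk).2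
    · refine Polynomial.degree_one_le.trans_lt ?_
      exact_mod_cast hg
  set f : Polynomial ℂ⟦X⟧ := Polynomial.X ^ g + r with hf
  have hm : f.Monic := Polynomial.monic_X_pow_add hdeg
  have hrmap : r.map (constantCoeff (R := ℂ)) = -1 := by
    rw [hr, Polynomial.map_sub, Polynomial.map_one, Polynomial.map_sum, Finset.sum_eq_zero]
    · simp
    · intro k hk
      have hk' := Finset.mem_Ico.1 hk
      rw [Polynomial.map_mul, Polynomial.map_C, map_mul, map_pow, constantCoeff_X,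
        zero_pow (by omega), mul_zero, map_zero, zero_mul]
  have hfmap : f.map (constantCoeff (R := ℂ)) = Polynomial.X ^ g - 1 := by
    rw [hf, Polynomial.map_add, Polynomial.map_pow, Polynomial.map_X, hrmap]
    ring
  obtain ⟨U, hU, hU0⟩ := hensel f hm 1 (by
      rw [constantCoeff_eval, hfmap]
      simp) (by
      rw [constantCoeff_eval, ← Polynomial.derivative_map, hfmap, Polynomial.derivative_sub,
        Polynomial.derivative_X_pow]
      simpa using hg.ne')
  refine ⟨U, ?_, hU0⟩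
  rw [hf, hr, Polynomial.eval_add, Polynomial.eval_sub, Polynomial.eval_finsetSum] at hU
  simp only [Polynomial.eval_mul, Polynomial.eval_C, Polynomial.eval_pow, Polynomial.eval_X,
    Polynomial.eval_one] at hU
  linear_combination hU

lemma exists_B (q : ℂ) (U : ℂ⟦X⟧) (hU : constantCoeff U = 1) :
    ∃ B : ℂ⟦X⟧, B ^ 2 - U * B + C q * X ^ 2 = 0 ∧ constantCoeff B = 1 := by
  set r : Polynomial ℂ⟦X⟧ := - (Polynomial.C U * Polynomial.X) + Polynomial.C (C q * X ^ 2) with hr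
  have hdeg : r.degree < (2 : ℕ) := by
    rw [hr]
    refine (Polynomial.degree_add_le _ _).trans_lt (max_lt ?_ ?_)
    · rw [Polynomial.degree_neg]
      refine (Polynomial.degree_C_mul_X_le _).trans_lt ?_
      exact_mod_cast one_lt_two
    · refine Polynomial.degree_C_le.trans_lt ?_
      exact_mod_cast two_pos
  set f : Polynomial ℂ⟦X⟧ := Polynomial.X ^ 2 + r with hf
  have hm : f.Monic := Polynomial.monic_X_pow_add hdeg
  have hfmap : f.map (constantCoeff (R := ℂ)) = Polynomial.X ^ 2 - Polynomial.X := by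
    rw [hf, hr]
    simp [hU, sub_eq_add_neg]
  obtain ⟨B, hB, hB0⟩ := hensel f hm 1 (by
      rw [constantCoeff_eval, hfmap]
      simp) (by
      rw [constantCoeff_eval, ← Polynomial.derivative_map, hfmap, Polynomial.derivative_sub,
        Polynomial.derivative_X_pow]
      simp
      norm_num)
  refine ⟨B, ?_, hB0⟩
  rw [hf, hr] at hB
  simp only [Polynomial.eval_add, Polynomial.eval_neg, Polynomial.eval_mul, Polynomial.eval_C,
    Polynomial.eval_pow, Polynomial.eval_X] at hB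
  linear_combination hB

lemma exists_sol (q : ℂ) {g : ℕ} (hg : 0 < g) (c : ℕ → ℂ) : ∃ U B : ℂ⟦X⟧, Sol q g c U B := by
  obtain ⟨U, h1, h2⟩ := exists_U hg c
  obtain ⟨B, h3, h4⟩ := exists_B q U h2
  exact ⟨U, B, h1, h2, h3, h4⟩

/-- The difference quotient of the `n`-th power. -/
noncomputable def gs (n : ℕ) (U V : ℂ⟦X⟧) : ℂ⟦X⟧ := ∑ i ∈ Finset.range n, U ^ i * V ^ (n - 1 - i)

lemma gs_mul (n : ℕ) (U V : ℂ⟦X⟧) : gs n U V * (U - V) = U ^ n - V ^ n :=
  (Commute.all U V).geom_sum₂_mul n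

lemma gs_const (n : ℕ) {U V : ℂ⟦X⟧} (hU : constantCoeff U = 1) (hV : constantCoeff V = 1) :
    constantCoeff (gs n U V) = n := by
  rw [gs, map_sum]
  simp [hU, hV]

/-- The logarithmic derivative, multiplied by the variable. -/
noncomputable def eta (B : ℂ⟦X⟧) : ℂ⟦X⟧ := X * d⁄dX ℂ B * B⁻¹

variable {q : ℂ} {g : ℕ} {c c' : ℕ → ℂ} {U B U' B' : ℂ⟦X⟧}

/-- Two polynomials with equal coefficients of index larger than `g - j`. -/
theorem diff_U (h : Sol q g c U B) (h' : Sol q g c' U' B') {j : ℕ} (hj : 1 ≤ j) (hjg : j < g)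
    (hc : ∀ k, g - j < k → k < g → c k = c' k) :
    ∃ E : ℂ⟦X⟧, U - U' = X ^ j * E ∧ constantCoeff E = - (c (g - j) - c' (g - j)) / g := by
  set Q : ℂ⟦X⟧ := gs g U U' + ∑ k ∈ Finset.Ico 1 g, C (c k) * X ^ (g - k) * gs k U U' with hQ
  set R : ℂ⟦X⟧ := ∑ k ∈ Finset.Ico 1 (g - j + 1), C (c k - c' k) * X ^ (g - k - j) * U' ^ k with hR
  have hg0 : (g : ℂ) ≠ 0 := by
    have : g ≠ 0 := by omega
    exact_mod_cast this
  have hQ0 : constantCoeff Q = g := by
    rw [hQ, map_add, gs_const g h.U0 h'.U0, map_sum, Finset.sum_eq_zero, add_zero]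
    intro k hk
    have hk' := Finset.mem_Ico.1 hk
    rw [map_mul, map_mul, map_pow, constantCoeff_X, zero_pow (by omega), mul_zero, zero_mul]
  have hR0 : constantCoeff R = c (g - j) - c' (g - j) := by
    rw [hR, map_sum, Finset.sum_eq_single (g - j)]
    · rw [map_mul, map_mul, map_pow, map_pow, h'.U0, constantCoeff_X,
        show g - (g - j) - j = 0 by omega]
      simp
    · intro k hk hk2
      have hk' := Finset.mem_Ico.1 hk
      rw [map_mul, map_mul, map_pow, constantCoeff_X, zero_pow (by omega), mul_zero, zero_mul]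
    · intro h0
      rw [Finset.mem_Ico] at h0
      omega
  have hsum : ∑ k ∈ Finset.Ico 1 g, C (c k - c' k) * X ^ (g - k) * U' ^ k = X ^ j * R := by
    rw [hR, Finset.mul_sum, ← Finset.sum_subset (s₁ := Finset.Ico 1 (g - j + 1))]
    · refine Finset.sum_congr rfl fun k hk => ?_
      have hk' := Finset.mem_Ico.1 hk
      rw [show g - k = j + (g - k - j) by omega, pow_add,
        show j + (g - k - j) - j = g - k - j by omega]
      ring
    · intro k hk
      rw [Finset.mem_Ico] at hk ⊢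
      omega
    · intro k hk hk2
      rw [Finset.mem_Ico] at hk hk2
      rw [hc k (by omega) hk.2, sub_self, map_zero, zero_mul, zero_mul]
  have hkey : Q * (U - U') = - (X ^ j * R) := by
    rw [← hsum, hQ, add_mul, gs_mul, Finset.sum_mul]
    have h1 : ∀ k ∈ Finset.Ico 1 g, C (c k) * X ^ (g - k) * gs k U U' * (U - U') =
        C (c k) * X ^ (g - k) * U ^ k - C (c' k) * X ^ (g - k) * U' ^ k -
          C (c k - c' k) * X ^ (g - k) * U' ^ k := by
      intro k _
      rw [mul_assoc, gs_mul, map_sub]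
      ring
    rw [Finset.sum_congr rfl h1, Finset.sum_sub_distrib, Finset.sum_sub_distrib]
    linear_combination h.eqU - h'.eqU
  have hQu : Q * Q⁻¹ = 1 := PowerSeries.mul_inv_cancel _ (by rw [hQ0]; exact hg0)
  refine ⟨- (R * Q⁻¹), ?_, ?_⟩
  · linear_combination Q⁻¹ * hkey - (U - U') * hQu
  · rw [map_neg, map_mul, constantCoeff_inv, hR0, hQ0]
    ring

theorem diff_B (h : Sol q g c U B) (h' : Sol q g c' U' B') {j : ℕ} (hj : 1 ≤ j) (hjg : j < g)
    (hc : ∀ k, g - j < k → k < g → c k = c' k) :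
    ∃ E : ℂ⟦X⟧, B - B' = X ^ j * E ∧ constantCoeff E = - (c (g - j) - c' (g - j)) / g := by
  obtain ⟨E, hE, hE0⟩ := diff_U h h' hj hjg hc
  set Q : ℂ⟦X⟧ := B + B' - U with hQ
  have hQ0 : constantCoeff Q = 1 := by
    rw [hQ, map_sub, map_add, h.B0, h'.B0, h.U0]
    ring
  have hQu : Q * Q⁻¹ = 1 := PowerSeries.mul_inv_cancel _ (by rw [hQ0]; exact one_ne_zero)
  have hkey : Q * (B - B') = (U - U') * B' := by
    rw [hQ]
    linear_combination h.eqB - h'.eqB
  refine ⟨E * B' * Q⁻¹, ?_, ?_⟩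
  · linear_combination Q⁻¹ * hkey - (B - B') * hQu + Q⁻¹ * B' * hE
  · rw [map_mul, map_mul, constantCoeff_inv, hE0, h'.B0, hQ0]
    ring

theorem diff_eta (h : Sol q g c U B) (h' : Sol q g c' U' B') {j : ℕ} (hj : 1 ≤ j) (hjg : j < g)
    (hc : ∀ k, g - j < k → k < g → c k = c' k) :
    coeff j (eta B) - coeff j (eta B') = - (j * (c (g - j) - c' (g - j))) / g := by
  obtain ⟨E, hE, hE0⟩ := diff_B h h' hj hjg hc
  have hB : B * B⁻¹ = 1 := PowerSeries.mul_inv_cancel _ (by rw [h.B0]; exact one_ne_zero)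
  have hB' : B' * B'⁻¹ = 1 := PowerSeries.mul_inv_cancel _ (by rw [h'.B0]; exact one_ne_zero)
  have hD : d⁄dX ℂ B = d⁄dX ℂ B' + (X ^ j * d⁄dX ℂ E + (j : ℂ⟦X⟧) * X ^ (j - 1) * E) := by
    have h1 : B = B' + X ^ j * E := by linear_combination hE
    rw [h1, map_add]
    congr 1
    rw [Derivation.leibniz, smul_eq_mul, smul_eq_mul, Derivation.leibniz_pow, derivative_X]
    simp only [smul_eq_mul, nsmul_eq_mul]
    ring
  have hX : (X : ℂ⟦X⟧) ^ j = X * X ^ (j - 1) := by
    rw [← pow_succ', Nat.sub_add_cancel hj]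
  have hkey : eta B - eta B' = X ^ j *
      ((B' * (X * d⁄dX ℂ E + (j : ℂ⟦X⟧) * E) - E * (X * d⁄dX ℂ B')) * (B⁻¹ * B'⁻¹)) := by
    unfold eta
    have h2 : X * d⁄dX ℂ B * B⁻¹ - X * d⁄dX ℂ B' * B'⁻¹ =
        (B' * (X * d⁄dX ℂ B) - B * (X * d⁄dX ℂ B')) * (B⁻¹ * B'⁻¹) := by
      linear_combination (- X * d⁄dX ℂ B * B⁻¹) * hB' + (X * d⁄dX ℂ B' * B'⁻¹) * hB
    rw [h2, hD]
    have h3 : B = B' + X ^ j * E := by linear_combination hE
    have h4 : B' * (X * (d⁄dX ℂ B' + (X ^ j * d⁄dX ℂ E + (j : ℂ⟦X⟧) * X ^ (j - 1) * E))) -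
        B * (X * d⁄dX ℂ B') = X ^ j *
        (B' * (X * d⁄dX ℂ E + (j : ℂ⟦X⟧) * E) - E * (X * d⁄dX ℂ B')) := by
      rw [h3, hX]
      ring
    rw [h4]
    ring
  rw [← map_sub, hkey]
  have h5 := coeff_X_pow_mul (R := ℂ) ((B' * (X * d⁄dX ℂ E + (j : ℂ⟦X⟧) * E) -
    E * (X * d⁄dX ℂ B')) * (B⁻¹ * B'⁻¹)) j 0
  rw [zero_add] at h5
  rw [h5, coeff_zero_eq_constantCoeff_apply]
  simp only [map_mul, map_sub, map_add, constantCoeff_X, constantCoeff_inv, h.B0, h'.B0, hE0,
    map_natCast, zero_mul, mul_zero, zero_add, sub_zero]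
  ring

end Pool.Agent.H857.PB
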