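import Pool.Agent.H857.PB.Count

/-!
# The number of points with a relation in a box of Weil polynomials
-/

set_option autoImplicit false

namespace Pool.Agent.H857.PB

open Finset

/-- The exponent of `√q` in the number of the exceptional real Weil polynomials of degree `g`. -/
def expo (g : ℕ) : ℕ := if g = 2 then 2 else g * (g - 1) / 2

lemma sum_all (g : ℕ) : 2 * ∑ i : Fin g, (g - (i : ℕ)) = g * (g + 1) := by
  have h1 : ∑ i : Fin g, (g - (i : ℕ)) = ∑ i ∈ range (g + 1), i := by
    rw [Fin.sum_univ_eq_sum_range (fun i => g - i) g, sum_range_succ', add_zero,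
      ← sum_range_reflect]
    refine sum_congr rfl fun i hi => ?_
    have := mem_range.1 hi
    omega
  rw [h1, mul_comm, sum_range_id_mul_two, Nat.add_sub_cancel, mul_comm]

lemma expo_spec {g : ℕ} (hg : 0 < g) (hg2 : g ≠ 2) : 2 * expo g = g * (g - 1) := by
  rw [expo, if_neg hg2]
  have h1 : 2 ∣ g * (g - 1) := by
    obtain ⟨k, rfl⟩ : ∃ k, g = k + 1 := ⟨g - 1, by omega⟩
    rw [Nat.add_sub_cancel, mul_comm]
    exact even_iff_two_dvd.1 (Nat.even_mul_succ_self k)
  omega

theorem sum_compl_zero (n : ℕ) :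
    ∑ i ∈ univ \ ({0} : Finset (Fin (n + 1))), (n + 1 - (i : ℕ)) ≤ expo (n + 1) := by
  have h1 := sum_sdiff (f := fun i : Fin (n + 1) => n + 1 - (i : ℕ))
    (subset_univ ({0} : Finset (Fin (n + 1))))
  rw [sum_singleton] at h1
  have h2 := sum_all (n + 1)
  simp only [Fin.val_zero, Nat.sub_zero] at h1
  by_cases h3 : n + 1 = 2
  · obtain rfl : n = 1 := by omega
    rw [expo, if_pos rfl]
    omega
  · have h4 : 2 * expo (n + 1) = (n + 1) * n := by
      simpa using expo_spec (Nat.succ_pos n) h3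
    have h5 : (n + 1) * (n + 1 + 1) = (n + 1) * n + 2 * (n + 1) := by ring
    omega

theorem sum_compl_Jset {n j : ℕ} (hj : 1 ≤ j) (hjn : j ≤ n) :
    ∑ i ∈ univ \ Jset n j, (n + 1 - (i : ℕ)) ≤ expo (n + 1) := by
  classical
  have h1 := sum_sdiff (f := fun i : Fin (n + 1) => n + 1 - (i : ℕ)) (subset_univ (Jset n j))
  have h2 := sum_all (n + 1)
  have h5 : (n + 1) * (n + 1 + 1) = (n + 1) * n + 2 * (n + 1) := by ring
  by_cases hn1 : n = 1
  · subst hn1
    obtain rfl : j = 1 := by omega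
    have h6 : Jset 1 1 = {1} := by decide
    rw [h6, sum_singleton] at h1
    rw [h6, expo, if_pos rfl]
    simp only [Fin.val_one] at h1
    omega
  have h4 : 2 * expo (n + 1) = (n + 1) * n := by
    simpa using expo_spec (Nat.succ_pos n) (show n + 1 ≠ 2 by omega)
  have key : n + 1 ≤ ∑ i ∈ Jset n j, (n + 1 - (i : ℕ)) := by
    have hj' : j < n + 1 := by omega
    by_cases hne : j ≠ n + 1 - j
    · have hj2 : n + 1 - j < n + 1 := by omega
      have h6 : ({⟨j, hj'⟩, ⟨n + 1 - j, hj2⟩} : Finset (Fin (n + 1))) ⊆ Jset n j := by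
        intro i hi
        rw [mem_insert, mem_singleton] at hi
        rw [Jset, mem_filter, if_pos hne]
        rcases hi with rfl | rfl
        · exact ⟨mem_univ _, Or.inl rfl⟩
        · exact ⟨mem_univ _, Or.inr rfl⟩
      refine le_trans ?_ (sum_le_sum_of_subset h6)
      rw [sum_pair (by
        intro h7
        exact hne (congrArg Fin.val h7))]
      simp only
      omega
    · rw [not_not] at hne
      have h1' : 1 < n + 1 := by omega
      have h6 : ({⟨j, hj'⟩, ⟨1, h1'⟩} : Finset (Fin (n + 1))) ⊆ Jset n j := by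
        intro i hi
        rw [mem_insert, mem_singleton] at hi
        rw [Jset, mem_filter, if_neg (not_not.2 hne)]
        rcases hi with rfl | rfl
        · exact ⟨mem_univ _, Or.inl rfl⟩
        · exact ⟨mem_univ _, Or.inr rfl⟩
      refine le_trans ?_ (sum_le_sum_of_subset h6)
      rw [sum_pair (by
        intro h7
        have := congrArg Fin.val h7
        simp only at this
        omega)]
      simp only
      omega
  omega

variable {g : ℕ} {X : Fin g → Finset ℤ} {K s : ℝ}

lemma DD_bound (hK : 1 ≤ K) (hs : 1 ≤ s)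
    (hX : ∀ i, ((X i).card : ℝ) ≤ K * s ^ (g - (i : ℕ))) {J : Finset (Fin g)} {E : ℕ}
    (hE : ∑ i ∈ univ \ J, (g - (i : ℕ)) ≤ E) : (DD X J : ℝ) ≤ K ^ g * s ^ E := by
  rw [DD, Nat.cast_prod]
  calc ∏ i ∈ univ \ J, ((X i).card : ℝ) ≤ ∏ i ∈ univ \ J, (K * s ^ (g - (i : ℕ))) :=
        prod_le_prod (fun i _ => Nat.cast_nonneg _) fun i _ => hX i
    _ = K ^ (univ \ J).card * s ^ (∑ i ∈ univ \ J, (g - (i : ℕ))) := by
        rw [prod_mul_distrib, prod_const, prod_pow_eq_pow_sum]
    _ ≤ K ^ g * s ^ E := by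
        refine mul_le_mul ?_ (pow_le_pow_right₀ hs hE) (by positivity) (by positivity)
        refine pow_le_pow_right₀ hK ?_
        refine (card_le_card (subset_univ _)).trans ?_
        simp

/-- **The number of the zeros of the universal polynomial in a box.** -/
theorem card_zeros_le {n : ℕ} {m : Fin (n + 1) → ℕ} (hm : ∃ i, m i ≠ 0)
    {P : MvPolynomial (Fin (n + 1)) RR} (hP : IsUniv P m) (hK : 1 ≤ K) (hs : 1 ≤ s)
    {X : Fin (n + 1) → Finset ℤ} (hX : ∀ i, ((X i).card : ℝ) ≤ K * s ^ (n + 1 - (i : ℕ)))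
    {q e : ℂ} (hq : q ≠ 0) (he : e ≠ 0) :
    ((zeros X P q e).card : ℝ) ≤
      (n + 1) * (P.totalDegree + 1) * K ^ (n + 1) * s ^ expo (n + 1) := by
  have h1 : ((zeros X P q e).card : ℝ) ≤ P.totalDegree * DD X {0} +
      ∑ j ∈ Icc 1 n, ((P.totalDegree : ℝ) + 1) * DD X (Jset n j) := by
    exact_mod_cast card_zeros hP hm hq he
  have h2 := DD_bound hK hs hX (sum_compl_zero n)
  have hpos : 0 ≤ K ^ (n + 1) * s ^ expo (n + 1) := by positivity
  calc ((zeros X P q e).card : ℝ) ≤ P.totalDegree * DD X {0} +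
      ∑ j ∈ Icc 1 n, ((P.totalDegree : ℝ) + 1) * DD X (Jset n j) := h1
    _ ≤ (P.totalDegree + 1) * (K ^ (n + 1) * s ^ expo (n + 1)) +
        ∑ j ∈ Icc 1 n, ((P.totalDegree : ℝ) + 1) * (K ^ (n + 1) * s ^ expo (n + 1)) := by
        refine add_le_add ?_ (sum_le_sum fun j hj => ?_)
        · refine mul_le_mul (by linarith) h2 (Nat.cast_nonneg _) (by positivity)
        · obtain ⟨hj1, hj2⟩ := mem_Icc.1 hj
          exact mul_le_mul_of_nonneg_left (DD_bound hK hs hX (sum_compl_Jset hj1 hj2))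
            (by positivity)
    _ = _ := by
        rw [sum_const, Nat.card_Icc, Nat.add_sub_cancel, nsmul_eq_mul]
        ring

end Pool.Agent.H857.PB
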