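import Mathlib

/-!
# The universal polynomial for the multiplicative relations
-/

set_option autoImplicit false

namespace Pool.Agent.H857.PB

open MvPolynomial

/-- The norm of a polynomial from the quadratic extension `x ^ 2 - y x + q = 0`. -/
theorem norm_one {A : Type*} [CommRing A] (q y : A) (F : Polynomial A) :
    ∃ N : A, ∀ (S : Type) [CommRing S] (φ : A →+* S) (a b : S), a + b = φ y → a * b = φ q →
      φ N = F.eval₂ φ a * F.eval₂ φ b := by
  rcases subsingleton_or_nontrivial A with hA | hA
  · refine ⟨0, ?_⟩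
    intro S _ φ a b _ _
    have h1 : (1 : S) = 0 := by
      rw [← map_one φ, Subsingleton.elim (1 : A) 0, map_zero]
    have h2 : Subsingleton S := subsingleton_of_zero_eq_one h1.symm
    exact Subsingleton.elim _ _
  set r : Polynomial A := - (Polynomial.C y * Polynomial.X) + Polynomial.C q with hr
  have hdeg : r.degree < (2 : ℕ) := by
    rw [hr]
    refine (Polynomial.degree_add_le _ _).trans_lt (max_lt ?_ ?_)
    · rw [Polynomial.degree_neg]
      refine (Polynomial.degree_C_mul_X_le _).trans_lt ?_
      exact_mod_cast one_lt_two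
    · refine Polynomial.degree_C_le.trans_lt ?_
      exact_mod_cast two_pos
  set p : Polynomial A := Polynomial.X ^ 2 + r with hp
  have hm : p.Monic := Polynomial.monic_X_pow_add hdeg
  have hpdeg : p.degree = 2 := by
    rw [hp, Polynomial.degree_add_eq_left_of_degree_lt]
    · exact Polynomial.degree_X_pow 2
    · rw [Polynomial.degree_X_pow]
      exact hdeg
  have hlt : (F %ₘ p).degree < 2 := by
    rw [← hpdeg]
    exact Polynomial.degree_modByMonic_lt F hm
  have hlin : F %ₘ p = Polynomial.C ((F %ₘ p).coeff 1) * Polynomial.X +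
      Polynomial.C ((F %ₘ p).coeff 0) :=
    Polynomial.eq_X_add_C_of_degree_le_one (by
      by_cases h0 : F %ₘ p = 0
      · rw [h0]
        simp
      · rw [Polynomial.degree_eq_natDegree h0] at hlt ⊢
        have : (F %ₘ p).natDegree < 2 := by exact_mod_cast hlt
        have : (F %ₘ p).natDegree ≤ 1 := by omega
        exact_mod_cast this)
  set u := (F %ₘ p).coeff 1
  set v := (F %ₘ p).coeff 0
  refine ⟨u ^ 2 * q + u * v * y + v ^ 2, ?_⟩
  intro S _ φ a b hab1 hab2
  have hroot : ∀ x : S, x ^ 2 - φ y * x + φ q = 0 → F.eval₂ φ x = φ u * x + φ v := by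
    intro x hx
    have h1 := Polynomial.modByMonic_add_div F p
    have h2 : p.eval₂ φ x = 0 := by
      rw [hp, hr]
      simp only [Polynomial.eval₂_add, Polynomial.eval₂_neg, Polynomial.eval₂_mul,
        Polynomial.eval₂_C, Polynomial.eval₂_pow, Polynomial.eval₂_X]
      linear_combination hx
    rw [← h1, Polynomial.eval₂_add, Polynomial.eval₂_mul, h2, zero_mul, add_zero, hlin]
    simp only [Polynomial.eval₂_add, Polynomial.eval₂_mul, Polynomial.eval₂_C, Polynomial.eval₂_X]
  rw [hroot a (by rw [← hab1, ← hab2]; ring), hroot b (by rw [← hab1, ← hab2]; ring)]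
  simp only [map_add, map_mul, map_pow]
  linear_combination (- φ u * φ v) * hab1 - (φ u) ^ 2 * hab2

/-- The value of a polynomial in `n + 1` variables. -/
theorem eval₂_cons {A S : Type*} [CommRing A] [CommRing S] (φ : A →+* S) {n : ℕ}
    (F : MvPolynomial (Fin (n + 1)) A) (x : S) (v : Fin n → S) :
    eval₂ φ (Fin.cons x v : Fin (n + 1) → S) F =
      (finSuccEquiv A n F).eval₂ (eval₂Hom φ v) x := by
  have h : (eval₂Hom φ (Fin.cons x v : Fin (n + 1) → S)) =
      (Polynomial.eval₂RingHom (eval₂Hom φ v) x).comp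
        ((finSuccEquiv A n : MvPolynomial (Fin (n + 1)) A ≃ₐ[A] _) :
          MvPolynomial (Fin (n + 1)) A →+* Polynomial (MvPolynomial (Fin n) A)) := by
    apply MvPolynomial.ringHom_ext
    · intro r
      simp [finSuccEquiv_apply]
    · intro i
      refine Fin.cases ?_ (fun j => ?_) i
      · simp [finSuccEquiv_X_zero]
      · simp [finSuccEquiv_X_succ]
  exact congrArg (fun f => f F) h

/-- The norm of a polynomial in several variables. -/
theorem norm_mv {n : ℕ} : ∀ {A : Type*} [CommRing A] (q : A) (y : Fin n → A)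
    (F : MvPolynomial (Fin n) A), ∃ N : A, ∀ (S : Type) [CommRing S] (φ : A →+* S)
      (a b : Fin n → S), (∀ i, a i + b i = φ (y i)) → (∀ i, a i * b i = φ q) →
      φ N = ∏ ε : Fin n → Bool, eval₂ φ (fun i => if ε i then b i else a i) F := by
  induction n with
  | zero =>
    intro A _ q y F
    refine ⟨eval (Fin.elim0) F, ?_⟩
    intro S _ φ a b _ _
    rw [Fintype.prod_unique]
    have h1 : F = C (eval (Fin.elim0) F) := by
      obtain ⟨c, rfl⟩ := MvPolynomial.C_surjective (Fin 0) F
      rw [eval_C]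
    conv_rhs => rw [h1]
    rw [eval₂_C]
  | succ n ih =>
    intro A _ q y F
    obtain ⟨N1, hN1⟩ := norm_one (C q : MvPolynomial (Fin n) A) (C (y 0)) (finSuccEquiv A n F)
    obtain ⟨N, hN⟩ := ih q (fun i => y i.succ) N1
    refine ⟨N, ?_⟩
    intro S _ φ a b h1 h2
    rw [hN S φ (fun i => a i.succ) (fun i => b i.succ) (fun i => h1 _) (fun i => h2 _)]
    have h3 : ∀ ε : Fin n → Bool,
        eval₂ φ (fun i => if ε i then b i.succ else a i.succ) N1 =
        ∏ t : Bool, eval₂ φ (fun i => if (Fin.cons t ε : Fin (n + 1) → Bool) i then b i else a i)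
          F := by
      intro ε
      have h4 := hN1 S (eval₂Hom φ (fun i => if ε i then b i.succ else a i.succ)) (a 0) (b 0)
        (by rw [coe_eval₂Hom, eval₂_C]; exact h1 0) (by rw [coe_eval₂Hom, eval₂_C]; exact h2 0)
      rw [coe_eval₂Hom] at h4
      rw [h4, ← eval₂_cons, ← eval₂_cons, Fintype.prod_bool, mul_comm]
      congr 2
      · funext i
        refine Fin.cases ?_ (fun j => ?_) i <;> simp
      · funext i
        refine Fin.cases ?_ (fun j => ?_) i <;> simp
    rw [Finset.prod_congr rfl fun ε _ => h3 ε, Finset.prod_comm,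
      ← (Fin.consEquiv (fun _ => Bool)).prod_comp, Fintype.prod_prod_type]
    rfl

/-- The coefficient ring of the universal polynomial: the variables are `q` and the value of the
relation. -/
abbrev RR : Type := MvPolynomial (Fin 2) ℤ

/-- The evaluation of the coefficients. -/
noncomputable def evR {S : Type} [CommRing S] (q e : S) : RR →+* S :=
  eval₂Hom (Int.castRingHom S) ![q, e]

/-- The norm of the relation, as a polynomial in the `y i`. -/
theorem exists_norm_rel {g : ℕ} (m : Fin g → ℕ) :
    ∃ N : MvPolynomial (Fin g) RR, ∀ (S : Type) [CommRing S] (q e : S) (a b : Fin g → S),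
      (∀ i, a i * b i = q) → eval₂ (evR q e) (fun i => a i + b i) N =
        ∏ ε : Fin g → Bool, (∏ i, (if ε i then b i else a i) ^ m i - e) := by
  obtain ⟨N, hN⟩ := norm_mv (A := MvPolynomial (Fin g) RR) (C (X 0)) (fun i => X i)
    (∏ i, X i ^ m i - C (C (X 1)))
  refine ⟨N, ?_⟩
  intro S _ q e a b hab
  have h1 := hN S (eval₂Hom (evR q e) (fun i => a i + b i)) a b
    (fun i => by rw [coe_eval₂Hom, eval₂_X]) (fun i => by
      rw [coe_eval₂Hom, eval₂_C, hab, evR, coe_eval₂Hom, eval₂_X]
      rfl)
  rw [coe_eval₂Hom] at h1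
  rw [h1]
  refine Finset.prod_congr rfl fun ε _ => ?_
  simp only [← coe_eval₂Hom, map_sub, map_prod, map_pow]
  simp only [coe_eval₂Hom, eval₂_X, eval₂_C]
  simp [evR]

/-- **The universal polynomial.** -/
theorem exists_univ {g : ℕ} (m : Fin g → ℕ) :
    ∃ P : MvPolynomial (Fin g) RR, ∀ (S : Type) [CommRing S] (q e : S) (a b : Fin g → S),
      (∀ i, a i * b i = q) →
      eval₂ (evR q e) (fun i : Fin g => aeval (fun j => a j + b j) (esymm (Fin g) ℤ (i + 1))) P =
        ∏ π : Equiv.Perm (Fin g), ∏ ε : Fin g → Bool,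
          (∏ i, (if ε i then b (π i) else a (π i)) ^ m i - e) := by
  obtain ⟨N, hN⟩ := exists_norm_rel m
  set T : MvPolynomial (Fin g) RR := ∏ π : Equiv.Perm (Fin g), rename π N with hT
  have hsym : T.IsSymmetric := by
    intro σ
    rw [hT, map_prod]
    rw [← Equiv.prod_comp (Equiv.mulLeft σ) (fun π => rename (π : Fin g → Fin g) N)]
    refine Finset.prod_congr rfl fun π _ => ?_
    rw [rename_rename]
    rfl
  obtain ⟨P, hP⟩ := esymmAlgHom_surjective (σ := Fin g) (n := g) RR (by simp) ⟨T, hsym⟩
  refine ⟨P, ?_⟩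
  intro S _ q e a b hab
  have h1 : aeval (fun i : Fin g => esymm (Fin g) RR (i + 1)) P = T := by
    rw [← esymmAlgHom_apply, hP]
  have h2 : ∀ i : ℕ, eval₂ (evR q e) (fun j => a j + b j) (esymm (Fin g) RR i) =
      aeval (fun j => a j + b j) (esymm (Fin g) ℤ i) := by
    intro i
    rw [esymm, esymm, ← coe_eval₂Hom, map_sum, map_sum]
    refine Finset.sum_congr rfl fun s _ => ?_
    rw [map_prod, map_prod]
    refine Finset.prod_congr rfl fun j _ => ?_
    rw [coe_eval₂Hom, eval₂_X, aeval_X]
  have h3 : eval₂ (evR q e) (fun i : Fin g => aeval (fun j => a j + b j) (esymm (Fin g) ℤ (i + 1))) P =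
      eval₂ (evR q e) (fun j => a j + b j) T := by
    have h4 : (eval₂Hom (evR q e) (fun j => a j + b j)).comp
        ((aeval (fun i : Fin g => esymm (Fin g) RR (i + 1)) :
          MvPolynomial (Fin g) RR →ₐ[RR] MvPolynomial (Fin g) RR) :
          MvPolynomial (Fin g) RR →+* MvPolynomial (Fin g) RR) =
        eval₂Hom (evR q e) (fun i : Fin g => aeval (fun j => a j + b j) (esymm (Fin g) ℤ (i + 1))) := by
      apply MvPolynomial.ringHom_ext
      · intro r
        simp
      · intro i
        simp only [RingHom.comp_apply, RingHom.coe_coe, aeval_X, coe_eval₂Hom, eval₂_X]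
        exact h2 (i + 1)
    have h5 := congrArg (fun f => f P) h4
    simp only [RingHom.comp_apply, RingHom.coe_coe, coe_eval₂Hom] at h5
    rw [← h5, h1]
  rw [h3, hT, ← coe_eval₂Hom, map_prod]
  refine Finset.prod_congr rfl fun π _ => ?_
  rw [coe_eval₂Hom, eval₂_rename]
  exact hN S q e (fun i => a (π i)) (fun i => b (π i)) (fun i => hab _)

end Pool.Agent.H857.PB
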