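import Pool.Agent.H857.PB.Laurent

/-!
# Relations which hold identically in a pencil
-/

set_option autoImplicit false

namespace Pool.Agent.H857.PB

open PowerSeries

/-- The relation read in the field of Laurent series. -/
theorem rel_laurent {n : ℕ} {q e : ℂ} (hq : q ≠ 0) (he : e ≠ 0) {B : ℂ⟦X⟧}
    (hB : constantCoeff B ≠ 0) {ω : ℂ} (hω0 : ω ≠ 0) {ι : Type} [Fintype ι] [DecidableEq ι]
    (f : ι → Fin n) (m : ι → ℕ) (ε : ι → Bool)
    {a b : Fin n → LL} (ha : ∀ j : Fin n, a j = th (rot (ω ^ (j : ℕ)) B) / th X)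
    (hab : ∀ j, a j * b j = th (C q))
    (h : ∏ i, (if ε i then b (f i) else a (f i)) ^ m i = th (C e)) :
    ∑ i, (if ε i then -(m i : ℤ) else m i) = 0 ∧
      ∀ N : ℕ, (∑ i, ((if ε i then -(m i : ℤ) else m i : ℤ) : ℂ) * (ω ^ (f i : ℕ)) ^ N) *
        coeff N (eta B) = 0 := by
  have hB0 : ∀ j : Fin n, constantCoeff (rot (ω ^ (j : ℕ)) B) ≠ 0 := by
    intro j
    rw [rot, map_mul, constantCoeff_C, ← coeff_zero_eq_constantCoeff_apply, coeff_rescale,
      coeff_zero_eq_constantCoeff_apply, pow_zero, one_mul]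
    exact mul_ne_zero (inv_ne_zero (pow_ne_zero _ hω0)) hB
  have ha0 : ∀ j, a j ≠ 0 := by
    intro j
    rw [ha]
    refine div_ne_zero ?_ th_X
    rw [Ne, map_eq_zero_iff th th_inj]
    intro h0
    apply hB0 j
    rw [h0, map_zero]
  set k : ι → ℤ := fun i => if ε i then -(m i : ℤ) else m i with hk
  set E : ℂ := e * ∏ i, (if ε i then (q ^ m i)⁻¹ else 1) with hE
  have hE0 : E ≠ 0 := by
    refine mul_ne_zero he (Finset.prod_ne_zero_iff.2 fun i _ => ?_)
    split_ifs
    · exact inv_ne_zero (pow_ne_zero _ hq)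
    · exact one_ne_zero
  have hinv : th (C E) = th (C e) * ∏ i, (if ε i then (th (C q) ^ m i)⁻¹ else 1) := by
    rw [hE, map_mul, map_mul, map_prod, map_prod]
    congr 1
    refine Finset.prod_congr rfl fun i _ => ?_
    split_ifs
    · have h1 : th (C ((q ^ m i)⁻¹)) * th (C q) ^ m i = 1 := by
        rw [← map_pow, ← map_mul, ← map_pow, ← map_mul, inv_mul_cancel₀ (pow_ne_zero _ hq),
          map_one, map_one]
      exact eq_inv_of_mul_eq_one_left h1
    · rw [map_one, map_one]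
  have hprod : ∏ i, (th (rot (ω ^ (f i : ℕ)) B) / th X) ^ k i = th (C E) := by
    rw [hinv, ← h, ← Finset.prod_mul_distrib]
    refine Finset.prod_congr rfl fun i _ => ?_
    rw [← ha, hk]
    dsimp only
    split_ifs
    · rw [← hab (f i), mul_pow, mul_inv, zpow_neg, zpow_natCast]
      have hb0 : b (f i) ≠ 0 := by
        intro h0
        have h1 := hab (f i)
        rw [h0, mul_zero] at h1
        have h2 := (map_eq_zero_iff th th_inj).1 h1.symm
        rw [map_eq_zero_iff _ (C_injective)] at h2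
        exact hq h2
      field_simp
    · rw [mul_one, zpow_natCast]
  obtain ⟨h1, h2⟩ := const_rel th th_inj (fun i => rot (ω ^ (f i : ℕ)) B)
    (fun i => hB0 (f i)) k E hE0 hprod
  refine ⟨h1, fun N => ?_⟩
  have h3 := congrArg (coeff N) h2
  rw [map_sum, map_zero] at h3
  rw [Finset.sum_mul, ← h3]
  refine Finset.sum_congr rfl fun i _ => ?_
  rw [map_zsmul, coeff_eta_rot (pow_ne_zero _ hω0) hB, zsmul_eq_mul, mul_assoc]

/-- The family of the values of the universal polynomial on the pencil with the coefficients `x'`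
and variable constant coefficient. -/
noncomputable def pen {n : ℕ} (P : MvPolynomial (Fin (n + 1)) RR) (q e : ℂ) (x' : Fin n → ℂ) :
    Polynomial ℂ :=
  val P (Polynomial.C q) (Polynomial.C e)
    (Fin.cons Polynomial.X (fun i => Polynomial.C (x' i)) : Fin (n + 1) → Polynomial ℂ)

lemma pen_natDegree {n : ℕ} (P : MvPolynomial (Fin (n + 1)) RR) (q e : ℂ) (x' : Fin n → ℂ) :
    (pen P q e x').natDegree ≤ P.totalDegree := by
  apply natDegree_val_le
  intro i
  refine Fin.cases ?_ (fun j => ?_) i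
  · simp
  · simp

lemma pen_eval {n : ℕ} (P : MvPolynomial (Fin (n + 1)) RR) (q e : ℂ) (x' : Fin n → ℂ) (t : ℂ) :
    (pen P q e x').eval t = val P q e (Fin.cons t x' : Fin (n + 1) → ℂ) := by
  have h1 := map_val P (Polynomial.evalRingHom t) (Polynomial.C q) (Polynomial.C e)
    (Fin.cons Polynomial.X (fun i => Polynomial.C (x' i)) : Fin (n + 1) → Polynomial ℂ)
  rw [Polynomial.coe_evalRingHom] at h1
  rw [pen, h1]
  congr 1
  · simp
  · simp
  · funext i
    refine Fin.cases ?_ (fun j => ?_) i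
    · simp
    · simp

/-- If the relation holds identically in the pencil, it holds for the roots near infinity. -/
theorem pen_zero {n : ℕ} {P : MvPolynomial (Fin (n + 1)) RR} {m : Fin (n + 1) → ℕ}
    (hP : IsUniv P m) {q e : ℂ} (hq : q ≠ 0) (he : e ≠ 0) {x' : Fin n → ℂ}
    (h0 : pen P q e x' = 0) {U B : ℂ⟦X⟧} (hS : Sol q (n + 1) (cf x') U B) {ω : ℂ}
    (hω : IsPrimitiveRoot ω (n + 1)) :
    ∃ (π : Equiv.Perm (Fin (n + 1))) (ε : Fin (n + 1) → Bool),
      ∑ i, (if ε i then -(m i : ℤ) else m i) = 0 ∧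
      ∀ N : ℕ, (∑ i, ((if ε i then -(m i : ℤ) else m i : ℤ) : ℂ) * (ω ^ (π i : ℕ)) ^ N) *
        coeff N (eta B) = 0 := by
  classical
  obtain ⟨a, b, ha, hab, hx⟩ := exists_laurent x' q hS hω
  have h1 := map_val P (Polynomial.eval₂RingHom (th.comp C) (-(1 / (th X) ^ (n + 1))))
    (Polynomial.C q) (Polynomial.C e)
    (Fin.cons Polynomial.X (fun i => Polynomial.C (x' i)) : Fin (n + 1) → Polynomial ℂ)
  rw [pen] at h0
  rw [h0, map_zero] at h1
  have h2 : (fun i => (Polynomial.eval₂RingHom (th.comp C) (-(1 / (th X) ^ (n + 1))))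
      ((Fin.cons Polynomial.X (fun i => Polynomial.C (x' i)) : Fin (n + 1) → Polynomial ℂ) i)) =
      (Fin.cons (-(1 / (th X) ^ (n + 1))) (fun i => th (C (x' i))) : Fin (n + 1) → LL) := by
    funext i
    refine Fin.cases ?_ (fun j => ?_) i
    · simp
    · simp
  rw [h2] at h1
  have h3 : (Polynomial.eval₂RingHom (th.comp C) (-(1 / (th X) ^ (n + 1)))) (Polynomial.C q) =
      th (C q) := by simp
  have h4 : (Polynomial.eval₂RingHom (th.comp C) (-(1 / (th X) ^ (n + 1)))) (Polynomial.C e) =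
      th (C e) := by simp
  rw [h3, h4] at h1
  obtain ⟨π, ε, h5⟩ := (val_eq_zero_iff hP hab hx).1 h1.symm
  refine ⟨π, ε, rel_laurent hq he (by rw [hS.B0]; exact one_ne_zero)
    (hω.ne_zero (Nat.succ_ne_zero n)) π m ε ha hab h5⟩

end Pool.Agent.H857.PB
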